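import Pool.Agent.Helper24.GT.Defs

/-!
# GT, piece ES: the sweep step
-/

namespace Helper24.GT

private lemma ES_split {α : Type*} (key : α → ℝ) (y : ℝ) :
    ∀ l : List α, l.Pairwise (fun e f => key e ≤ key f) →
      ∃ A L B : List α, l = A ++ L ++ B ∧ (∀ e ∈ A, key e < y) ∧ (∀ e ∈ L, key e = y) ∧
        (∀ e ∈ B, y < key e) := by
  intro l
  induction l with
  | nil =>
    intro _
    exact ⟨[], [], [], rfl, by simp, by simp, by simp⟩
  | cons a t ih =>
    intro h
    rw [List.pairwise_cons] at h
    obtain ⟨ha, ht⟩ := h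
    obtain ⟨A, L, B, hl, hA, hL, hB⟩ := ih ht
    rcases lt_trichotomy (key a) y with h1 | h1 | h1
    · refine ⟨a :: A, L, B, by simp [hl], ?_, hL, hB⟩
      intro e he
      rcases List.mem_cons.1 he with h2 | h2
      · rw [h2]; exact h1
      · exact hA e h2
    · have hA0 : A = [] := by
        apply List.eq_nil_iff_forall_not_mem.2
        intro e he
        have h2 := ha e (by rw [hl]; simp [he])
        have h3 := hA e he
        linarith
      subst hA0
      refine ⟨[], a :: L, B, by simp [hl], by simp, ?_, hB⟩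
      intro e he
      rcases List.mem_cons.1 he with h2 | h2
      · rw [h2]; exact h1
      · exact hL e h2
    · have hA0 : A = [] := by
        apply List.eq_nil_iff_forall_not_mem.2
        intro e he
        have h2 := ha e (by rw [hl]; simp [he])
        have h3 := hA e he
        linarith
      have hL0 : L = [] := by
        apply List.eq_nil_iff_forall_not_mem.2
        intro e he
        have h2 := ha e (by rw [hl]; simp [he])
        have h3 := hL e he
        linarith
      subst hA0
      subst hL0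
      refine ⟨[], [], a :: B, by simp [hl], by simp, by simp, ?_⟩
      intro e he
      rcases List.mem_cons.1 he with h2 | h2
      · rw [h2]; exact h1
      · exact hB e h2

open Classical in
private lemma ES_sorted {α : Type*} (k : α → ℝ) (T : Finset α) :
    (∀ e ∈ T, ∀ f ∈ T, k e = k f → e = f) →
      ∃ R : List α, (∀ e, e ∈ R ↔ e ∈ T) ∧ R.Pairwise (fun e f => k e < k f) ∧
        R.length = T.card := by
  induction T using Finset.induction_on_max_value k with
  | empty =>
    intro _
    exact ⟨[], by simp, by simp, by simp⟩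
  | insert a s ha hmax ih =>
    intro hinj
    obtain ⟨R, hR1, hR2, hR3⟩ := ih (fun e he f hf hef =>
      hinj e (Finset.mem_insert_of_mem he) f (Finset.mem_insert_of_mem hf) hef)
    refine ⟨R ++ [a], ?_, ?_, ?_⟩
    · intro e
      rw [List.mem_append, hR1, List.mem_singleton, Finset.mem_insert]
      tauto
    · rw [List.pairwise_append]
      refine ⟨hR2, by simp, ?_⟩
      intro e he f hf
      rw [List.mem_singleton] at hf
      subst hf
      have he' := (hR1 e).1 he
      refine lt_of_le_of_ne (hmax e he') ?_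
      intro h
      have := hinj e (Finset.mem_insert_of_mem he') f (Finset.mem_insert_self _ _) h
      rw [this] at he'
      exact ha he'
    · rw [List.length_append, hR3, Finset.card_insert_of_notMem ha]
      rfl

/-- two continuous functions with no common value on `(x, y]` keep their order. -/
private lemma ES_keep {f g : ℝ → ℝ} (hf : Continuous f) (hg : Continuous g) {x y : ℝ}
    (hxy : x ≤ y) (h : f x < g x) (hne : ∀ z, x < z → z ≤ y → f z ≠ g z) : f y < g y := by
  by_contra hcon
  push Not at hcon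
  have hcont : Continuous (fun z => g z - f z) := hg.sub hf
  have hmem : (0 : ℝ) ∈ (fun z => g z - f z) '' Set.Icc x y := by
    apply intermediate_value_Icc' hxy hcont.continuousOn
    constructor
    · show g y - f y ≤ 0
      linarith
    · show 0 ≤ g x - f x
      linarith
  obtain ⟨z, hz, hz0⟩ := hmem
  have hz0' : g z - f z = 0 := hz0
  have hzx : z ≠ x := by
    intro e
    rw [e] at hz0'
    linarith
  exact hne z (lt_of_le_of_ne hz.1 hzx.symm) hz.2 (by linarith)

private lemma ES_ht_z {V : Type*} {X Y : V → ℝ} {a b : V} (h : X a < X b) (x : ℝ) :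
    ht X Y a b x = Y b + slp X Y a b * (x - X b) := by
  have h1 := ht_right (Y := Y) h
  rw [ht_eq_slp] at h1 ⊢
  linarith

/-- Passing a vertex `z` in the sweep: the edges crossing the line at `s' < X z` are, from bottom
to top, those passing below `z`, those ending at `z`, those passing above `z`; the edges crossing
the line at `s > X z` are those passing below, those starting at `z`, those passing above. -/
theorem slab_split {V : Type*} [Fintype V] {X Y : V → ℝ} (hX : Function.Injective X)
    (hgp : GP X Y) {G : SimpleGraph V} (hG : Pln X Y G) (z : V) {s' s : ℝ} (h1 : s' < X z)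
    (h2 : X z < s) (hs : ∀ v, v ≠ z → X v < s' ∨ s < X v) {l : List (V × V)}
    (hl : IsSlab X Y G s' l) :
    ∃ A L R B : List (V × V), l = A ++ L ++ B ∧ IsSlab X Y G s (A ++ R ++ B) ∧
      (∀ e, e ∈ L ↔ e.2 = z ∧ G.Adj z e.1 ∧ X e.1 < X z) ∧
      (∀ e, e ∈ R ↔ e.1 = z ∧ G.Adj z e.2 ∧ X z < X e.2) ∧
      L.length = dL X G z ∧ R.length = dR X G z ∧
      (L.map (fun e => slp X Y e.1 e.2)).Pairwise (fun x y => y < x) ∧
      (R.map (fun e => slp X Y e.1 e.2)).Pairwise (fun x y => x < y) := by
  classical
  -- facts about the members of `l`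
  have hm1 : ∀ e ∈ l, G.Adj e.1 e.2 := fun e he => ((hl.mem e).1 he).1
  have hm2 : ∀ e ∈ l, X e.1 < s' := fun e he => ((hl.mem e).1 he).2.1
  have hm3 : ∀ e ∈ l, s' < X e.2 := fun e he => ((hl.mem e).1 he).2.2
  have hm4 : ∀ e ∈ l, e.2 ≠ z → s < X e.2 := fun e he hne => by
    rcases hs e.2 hne with h | h
    · exact absurd (hm3 e he) (not_lt.2 h.le)
    · exact h
  have hm5 : ∀ e ∈ l, X z ≤ X e.2 := fun e he => by
    by_cases h : e.2 = z
    · rw [h]
    · linarith [hm4 e he h]
  have hm6 : ∀ e ∈ l, e.1 ≠ z := fun e he h => by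
    have := hm2 e he
    rw [h] at this
    linarith
  have hk1 : ∀ e ∈ l, e.2 = z → ht X Y e.1 e.2 (X z) = Y z := fun e he h => by
    have h3 : X e.1 < X e.2 := by linarith [hm2 e he, hm3 e he]
    rw [← h]
    exact ht_right h3
  have hk2 : ∀ e ∈ l, ht X Y e.1 e.2 (X z) = Y z → e.2 = z := fun e he h => by
    by_contra hne
    have h3 : X e.1 < X e.2 := by linarith [hm2 e he, hm3 e he]
    exact gp_ht hgp h3 (hm6 e he) hne h
  -- the keys are monotone along `l`
  have hmono : l.Pairwise (fun e f => ht X Y e.1 e.2 (X z) ≤ ht X Y f.1 f.2 (X z)) := by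
    refine hl.sorted.imp_of_mem ?_
    intro e f he hf hef
    by_contra hcon
    push Not at hcon
    have hne : (e.1, e.2) ≠ (f.1, f.2) := by
      intro h
      have e1 : e.1 = f.1 := congrArg Prod.fst h
      have e2 : e.2 = f.2 := congrArg Prod.snd h
      rw [e1, e2] at hef
      exact lt_irrefl _ hef
    have hcont : Continuous (fun x => ht X Y f.1 f.2 x - ht X Y e.1 e.2 x) :=
      (ht_continuous X Y f.1 f.2).sub (ht_continuous X Y e.1 e.2)
    have hmem : (0 : ℝ) ∈ (fun x => ht X Y f.1 f.2 x - ht X Y e.1 e.2 x) '' Set.Icc s' (X z) := by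
      apply intermediate_value_Icc' h1.le hcont.continuousOn
      constructor
      · show ht X Y f.1 f.2 (X z) - ht X Y e.1 e.2 (X z) ≤ 0
        linarith
      · show 0 ≤ ht X Y f.1 f.2 s' - ht X Y e.1 e.2 s'
        linarith
    obtain ⟨x, hx, hx0⟩ := hmem
    have hx0' : ht X Y f.1 f.2 x - ht X Y e.1 e.2 x = 0 := hx0
    have hxz : x ≠ X z := by
      intro h
      rw [h] at hx0'
      linarith
    have hxz' : x < X z := lt_of_le_of_ne hx.2 hxz
    exact ht_ne hX hgp hG (hm1 e he) (hm1 f hf) hne (x := x)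
      (by linarith [hm2 e he, hx.1]) (by linarith [hm5 e he]) (by linarith [hm2 f hf, hx.1])
      (by linarith [hm5 f hf]) (by linarith)
  obtain ⟨A, L, B, hlABL, hA, hL, hB⟩ := ES_split (fun e : V × V => ht X Y e.1 e.2 (X z)) (Y z) l
    hmono
  have hAl : ∀ e ∈ A, e ∈ l := fun e he => by rw [hlABL]; simp [he]
  have hLl : ∀ e ∈ L, e ∈ l := fun e he => by rw [hlABL]; simp [he]
  have hBl : ∀ e ∈ B, e ∈ l := fun e he => by rw [hlABL]; simp [he]
  have hA2 : ∀ e ∈ A, e.2 ≠ z := fun e he h => by
    have h3 := hk1 e (hAl e he) h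
    have h4 := hA e he
    linarith
  have hB2 : ∀ e ∈ B, e.2 ≠ z := fun e he h => by
    have h3 := hk1 e (hBl e he) h
    have h4 := hB e he
    linarith
  -- the list `R`
  let T : Finset (V × V) := Finset.univ.filter (fun e => e.1 = z ∧ G.Adj z e.2 ∧ X z < X e.2)
  have hT : ∀ e, e ∈ T ↔ e.1 = z ∧ G.Adj z e.2 ∧ X z < X e.2 := fun e => by simp [T]
  obtain ⟨R, hR1, hR2, hR3⟩ := ES_sorted (fun e : V × V => slp X Y e.1 e.2) T (by
    intro e he f hf hef
    obtain ⟨e1, e2, e3⟩ := (hT e).1 he
    obtain ⟨f1, f2, f3⟩ := (hT f).1 hf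
    refine Prod.ext (e1.trans f1.symm) ?_
    by_contra hne
    simp only [slp, e1, f1] at hef
    have p1 : X e.2 - X z ≠ 0 := by linarith
    have p2 : X f.2 - X z ≠ 0 := by linarith
    rw [div_eq_div_iff p1 p2] at hef
    exact hgp z e.2 f.2 e2.ne f2.ne hne (by linarith))
  have hRmem : ∀ e, e ∈ R ↔ e.1 = z ∧ G.Adj z e.2 ∧ X z < X e.2 := fun e => (hR1 e).trans (hT e)
  have hRs : ∀ e ∈ R, s < X e.2 := fun e he => by
    obtain ⟨e1, e2, e3⟩ := (hRmem e).1 he
    rcases hs e.2 e2.ne' with h | h
    · linarith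
    · exact h
  have hLmem : ∀ e, e ∈ L ↔ e.2 = z ∧ G.Adj z e.1 ∧ X e.1 < X z := by
    intro e
    constructor
    · intro he
      have h3 := hk2 e (hLl e he) (hL e he)
      refine ⟨h3, ?_, by linarith [hm2 e (hLl e he)]⟩
      have h4 := hm1 e (hLl e he)
      rw [h3] at h4
      exact h4.symm
    · rintro ⟨e1, e2, e3⟩
      have h4 : X e.1 < s' := by
        rcases hs e.1 e2.ne' with h | h
        · exact h
        · linarith
      have h5 : e ∈ l := (hl.mem e).2 ⟨by rw [e1]; exact e2.symm, h4, by rw [e1]; exact h1⟩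
      have h6 := hk1 e h5 e1
      rw [hlABL, List.mem_append, List.mem_append] at h5
      rcases h5 with (h5 | h5) | h5
      · exact absurd e1 (hA2 e h5)
      · exact h5
      · exact absurd e1 (hB2 e h5)
  -- the lists are free of repetitions
  have hpl : l.Pairwise (fun e f => ht X Y e.1 e.2 s' < ht X Y f.1 f.2 s') := hl.sorted
  have hpl' := hpl
  rw [hlABL, List.pairwise_append, List.pairwise_append] at hpl'
  obtain ⟨⟨hpA, hpL, hpAL⟩, hpB, hpALB⟩ := hpl'
  have hLnd : L.Nodup := by
    refine hpL.imp ?_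
    intro e f hef h
    rw [h] at hef
    exact lt_irrefl _ hef
  have hsl : ∀ e ∈ L, ∀ f ∈ L, ht X Y e.1 e.2 s' < ht X Y f.1 f.2 s' →
      slp X Y f.1 f.2 < slp X Y e.1 e.2 := by
    intro e he f hf hef
    obtain ⟨e1, e2, e3⟩ := (hLmem e).1 he
    obtain ⟨f1, f2, f3⟩ := (hLmem f).1 hf
    rw [ES_ht_z (by rw [e1]; exact e3) s', ES_ht_z (by rw [f1]; exact f3) s', e1, f1] at hef
    rw [e1, f1]
    nlinarith
  refine ⟨A, L, R, B, hlABL, ⟨?_, ?_⟩, hLmem, hRmem, ?_, ?_, ?_, ?_⟩
  · -- membership
    intro e
    constructor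
    · intro he
      rw [List.mem_append, List.mem_append] at he
      rcases he with (he | he) | he
      · exact ⟨hm1 e (hAl e he), by linarith [hm2 e (hAl e he)], hm4 e (hAl e he) (hA2 e he)⟩
      · obtain ⟨e1, e2, e3⟩ := (hRmem e).1 he
        exact ⟨by rw [e1]; exact e2, by rw [e1]; exact h2, hRs e he⟩
      · exact ⟨hm1 e (hBl e he), by linarith [hm2 e (hBl e he)], hm4 e (hBl e he) (hB2 e he)⟩
    · rintro ⟨e1, e2, e3⟩
      rw [List.mem_append, List.mem_append]
      by_cases hz : e.1 = z
      · left; right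
        exact (hRmem e).2 ⟨hz, by rw [← hz]; exact e1, by linarith⟩
      · have h4 : X e.1 < s' := by
          rcases hs e.1 hz with h | h
          · exact h
          · linarith
        have h5 : e ∈ l := (hl.mem e).2 ⟨e1, h4, by linarith⟩
        have h6 : e.2 ≠ z := by
          intro h
          rw [h] at e3
          linarith
        rw [hlABL, List.mem_append, List.mem_append] at h5
        rcases h5 with (h5 | h5) | h5
        · left; left; exact h5
        · exact absurd ((hLmem e).1 h5).1 h6
        · right; exact h5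
  · -- order
    have hold : ∀ e ∈ l, ∀ f ∈ l, e.2 ≠ z → f.2 ≠ z →
        ht X Y e.1 e.2 s' < ht X Y f.1 f.2 s' → ht X Y e.1 e.2 s < ht X Y f.1 f.2 s := by
      intro e he f hf he2 hf2 hef
      exact ht_lt_of_ht_lt hX hgp hG (hm1 e he) (hm1 f hf) (x := s') (y := s) (hm2 e he)
        (hm3 e he) (hm2 f hf) (hm3 f hf) (by linarith [hm2 e he]) (hm4 e he he2)
        (by linarith [hm2 f hf]) (hm4 f hf hf2) hef
    rw [List.pairwise_append, List.pairwise_append]
    refine ⟨⟨?_, ?_, ?_⟩, ?_, ?_⟩
    · refine hpA.imp_of_mem ?_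
      intro e f he hf hef
      exact hold e (hAl e he) f (hAl f hf) (hA2 e he) (hA2 f hf) hef
    · refine hR2.imp_of_mem ?_
      intro e f he hf hef
      obtain ⟨e1, e2, e3⟩ := (hRmem e).1 he
      obtain ⟨f1, f2, f3⟩ := (hRmem f).1 hf
      rw [ht_eq_slp, ht_eq_slp, e1, f1]
      simp only [e1, f1] at hef
      nlinarith
    · -- `A` below `R`
      intro e he f hf
      obtain ⟨f1, f2, f3⟩ := (hRmem f).1 hf
      refine ES_keep (ht_continuous X Y e.1 e.2) (ht_continuous X Y f.1 f.2) h2.le ?_ ?_
      · have h3 := hA e he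
        rw [f1, ht_left]
        exact h3
      · intro x hx1 hx2
        have hne : (e.1, e.2) ≠ (f.1, f.2) := by
          intro h
          have e1 : e.1 = f.1 := congrArg Prod.fst h
          exact hm6 e (hAl e he) (e1.trans f1)
        refine ht_ne hX hgp hG (hm1 e (hAl e he)) (by rw [f1]; exact f2) hne
          (by linarith [hm2 e (hAl e he)]) (by linarith [hm4 e (hAl e he) (hA2 e he)])
          (by rw [f1]; exact hx1) (by linarith [hRs f hf])
    · refine hpB.imp_of_mem ?_
      intro e f he hf hef
      exact hold e (hBl e he) f (hBl f hf) (hB2 e he) (hB2 f hf) hef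
    · intro e he f hf
      rw [List.mem_append] at he
      rcases he with he | he
      · exact hold e (hAl e he) f (hBl f hf) (hA2 e he) (hB2 f hf)
          (hpALB e (by simp [he]) f hf)
      · -- `R` below `B`
        obtain ⟨e1, e2, e3⟩ := (hRmem e).1 he
        refine ES_keep (ht_continuous X Y e.1 e.2) (ht_continuous X Y f.1 f.2) h2.le ?_ ?_
        · have h3 := hB f hf
          rw [e1, ht_left]
          exact h3
        · intro x hx1 hx2
          have hne : (e.1, e.2) ≠ (f.1, f.2) := by
            intro h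
            have h4 : e.1 = f.1 := congrArg Prod.fst h
            exact hm6 f (hBl f hf) (h4.symm.trans e1)
          refine ht_ne hX hgp hG (by rw [e1]; exact e2) (hm1 f (hBl f hf)) hne
            (by rw [e1]; exact hx1) (by linarith [hRs e he])
            (by linarith [hm2 f (hBl f hf)]) (by linarith [hm4 f (hBl f hf) (hB2 f hf)])
  · -- number of left neighbours
    rw [← List.toFinset_card_of_nodup hLnd]
    unfold dL cnt
    refine Finset.card_bij (fun e _ => e.1) ?_ ?_ ?_
    · intro e he
      rw [List.mem_toFinset] at he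
      obtain ⟨e1, e2, e3⟩ := (hLmem e).1 he
      simp [e2, e3]
    · intro e he f hf hef
      rw [List.mem_toFinset] at he hf
      exact Prod.ext hef (((hLmem e).1 he).1.trans ((hLmem f).1 hf).1.symm)
    · intro u hu
      simp only [Finset.mem_filter, Finset.mem_univ, true_and] at hu
      exact ⟨(u, z), by rw [List.mem_toFinset]; exact (hLmem _).2 ⟨rfl, hu.1, hu.2⟩, rfl⟩
  · -- number of right neighbours
    rw [hR3]
    unfold dR cnt
    refine Finset.card_bij (fun e _ => e.2) ?_ ?_ ?_
    · intro e he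
      obtain ⟨e1, e2, e3⟩ := (hT e).1 he
      simp [e2, e3]
    · intro e he f hf hef
      exact Prod.ext (((hT e).1 he).1.trans ((hT f).1 hf).1.symm) hef
    · intro u hu
      simp only [Finset.mem_filter, Finset.mem_univ, true_and] at hu
      exact ⟨(z, u), (hT _).2 ⟨rfl, hu.1, hu.2⟩, rfl⟩
  · rw [List.pairwise_map]
    refine hpL.imp_of_mem ?_
    intro e f he hf hef
    exact hsl e he f hf hef
  · rw [List.pairwise_map]
    exact hR2

end Helper24.GT
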