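import Pool.Agent.Helper24.GT.Fin.EL
import Pool.Agent.Helper24.GT.Fin.ES

/-!
GT-EI: edges and pointed vertices of a plane straight-line graph.
-/

namespace Helper24.GT

open Classical in
/-- A point just to the left of `X z`. -/
private theorem EI_below {V : Type*} [Fintype V] (X : V → ℝ) (z : V) :
    ∃ s' : ℝ, s' < X z ∧ ∀ v, X v < X z → X v < s' := by
  rcases (Finset.univ.filter fun v => X v < X z).eq_empty_or_nonempty with h | h
  · refine ⟨X z - 1, by linarith, fun v hv => ?_⟩
    have : v ∈ Finset.univ.filter fun v => X v < X z := by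
      rw [Finset.mem_filter]; exact ⟨Finset.mem_univ _, hv⟩
    rw [h] at this
    exact absurd this (Finset.notMem_empty _)
  · obtain ⟨w, hw, hmax⟩ := Finset.exists_max_image _ X h
    rw [Finset.mem_filter] at hw
    refine ⟨(X w + X z) / 2, by linarith [hw.2], fun v hv => ?_⟩
    have h1 := hmax v (by rw [Finset.mem_filter]; exact ⟨Finset.mem_univ _, hv⟩)
    linarith [hw.2]

/-- The left and right slopes at a pointed vertex are separated. -/
private theorem EI_sep {V : Type*} {X Y : V → ℝ} {G : SimpleGraph V} {z : V}
    (hP : Pointed X Y G z) {L R : List (V × V)}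
    (hL : ∀ e, e ∈ L ↔ e.2 = z ∧ G.Adj z e.1 ∧ X e.1 < X z)
    (hR : ∀ e, e ∈ R ↔ e.1 = z ∧ G.Adj z e.2 ∧ X z < X e.2) :
    (∀ x ∈ L.map (fun e => slp X Y e.1 e.2), ∀ y ∈ R.map (fun e => slp X Y e.1 e.2), y < x) ∨
    (∀ x ∈ L.map (fun e => slp X Y e.1 e.2), ∀ y ∈ R.map (fun e => slp X Y e.1 e.2), x < y) := by
  obtain ⟨α, β, h⟩ := hP
  have hl : ∀ x ∈ L.map (fun e => slp X Y e.1 e.2), α + β * x < 0 := by
    intro x hx
    obtain ⟨e, he, rfl⟩ := List.mem_map.1 hx
    obtain ⟨h1, h2, h3⟩ := (hL e).1 he
    have h4 := h e.1 h2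
    have h5 : X z - X e.1 ≠ 0 := by linarith
    have h6 : Y e.1 - Y z = slp X Y e.1 z * (X e.1 - X z) := by
      unfold slp; field_simp; ring
    rw [h6] at h4
    have h7 : 0 < (α + β * slp X Y e.1 z) * (X e.1 - X z) := by linarith
    change α + β * slp X Y e.1 e.2 < 0
    rw [h1]
    by_contra hc
    push Not at hc
    have := mul_nonpos_of_nonneg_of_nonpos hc (by linarith : X e.1 - X z ≤ 0)
    linarith
  have hr : ∀ y ∈ R.map (fun e => slp X Y e.1 e.2), 0 < α + β * y := by
    intro y hy
    obtain ⟨e, he, rfl⟩ := List.mem_map.1 hy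
    obtain ⟨h1, h2, h3⟩ := (hR e).1 he
    have h4 := h e.2 h2
    have h5 : X e.2 - X z ≠ 0 := by linarith
    have h6 : Y e.2 - Y z = slp X Y z e.2 * (X e.2 - X z) := by
      unfold slp; field_simp
    rw [h6] at h4
    have h7 : 0 < (α + β * slp X Y z e.2) * (X e.2 - X z) := by linarith
    change 0 < α + β * slp X Y e.1 e.2
    rw [h1]
    by_contra hc
    push Not at hc
    have := mul_nonpos_of_nonpos_of_nonneg hc (by linarith : 0 ≤ X e.2 - X z)
    linarith
  rcases lt_trichotomy β 0 with hβ | hβ | hβ
  · left
    intro x hx y hy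
    have h1 := hl x hx
    have h2 := hr y hy
    by_contra hc
    push Not at hc
    have := mul_le_mul_of_nonpos_left hc hβ.le
    linarith
  · left
    intro x hx y hy
    have h1 := hl x hx
    have h2 := hr y hy
    rw [hβ] at h1 h2
    linarith
  · right
    intro x hx y hy
    have h1 := hl x hx
    have h2 := hr y hy
    by_contra hc
    push Not at hc
    have := mul_le_mul_of_nonneg_left hc hβ.le
    linarith

open Classical in
/-- The sweep. -/
private theorem EI_sweep {V : Type*} [Fintype V] {X Y : V → ℝ} (hX : Function.Injective X)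
    (hgp : GP X Y) {G : SimpleGraph V} (hG : Pln X Y G) (k : ℕ) :
    ∀ s : ℝ, (∀ v, X v ≠ s) → (Finset.univ.filter fun v => X v < s).card = k →
      ∃ l : List (V × V), IsSlab X Y G s l ∧
        desc (l.map (fun e => slp X Y e.1 e.2)) +
          ∑ v ∈ Finset.univ.filter (fun v => X v < s), (dL X G v - 1) ≤
        ∑ v ∈ Finset.univ.filter (fun v => X v < s), slot X Y G v := by
  induction k with
  | zero =>
    intro s _ hk
    rw [Finset.card_eq_zero] at hk
    refine ⟨[], ⟨fun e => ?_, List.Pairwise.nil⟩, ?_⟩
    · constructor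
      · intro h; exact absurd h List.not_mem_nil
      · rintro ⟨_, h, _⟩
        have : e.1 ∈ Finset.univ.filter fun v => X v < s := by
          rw [Finset.mem_filter]; exact ⟨Finset.mem_univ _, h⟩
        rw [hk] at this
        exact absurd this (Finset.notMem_empty _)
    · rw [hk]
      simp [desc]
  | succ k ih =>
    intro s hs hk
    have hne : (Finset.univ.filter fun v => X v < s).Nonempty := by
      rw [← Finset.card_pos]; omega
    obtain ⟨z, hz, hmax⟩ := Finset.exists_max_image _ X hne
    rw [Finset.mem_filter] at hz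
    obtain ⟨s', hs'z, hs'⟩ := EI_below X z
    have hzs : X z < s := hz.2
    have hkey : ∀ v, v ≠ z → X v < s' ∨ s < X v := by
      intro v hv
      rcases lt_or_ge (X v) s with h | h
      · left
        apply hs'
        have h1 := hmax v (by rw [Finset.mem_filter]; exact ⟨Finset.mem_univ _, h⟩)
        exact lt_of_le_of_ne h1 (fun e => hv (hX e))
      · right
        exact lt_of_le_of_ne h (hs v).symm
    have hset : (Finset.univ.filter fun v => X v < s) =
        insert z (Finset.univ.filter fun v => X v < s') := by
      ext v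
      rw [Finset.mem_insert, Finset.mem_filter, Finset.mem_filter]
      constructor
      · rintro ⟨_, h⟩
        by_cases hv : v = z
        · exact Or.inl hv
        · right
          refine ⟨Finset.mem_univ _, (hkey v hv).resolve_right ?_⟩
          intro h'; exact lt_irrefl _ (h.trans h')
      · rintro (rfl | ⟨_, h⟩)
        · exact ⟨Finset.mem_univ _, hzs⟩
        · exact ⟨Finset.mem_univ _, h.trans (hs'z.trans hzs)⟩
    have hzn : z ∉ Finset.univ.filter fun v => X v < s' := by
      rw [Finset.mem_filter]
      rintro ⟨_, h⟩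
      exact lt_irrefl _ (h.trans hs'z)
    have hcard : (Finset.univ.filter fun v => X v < s').card = k := by
      rw [hset, Finset.card_insert_of_notMem hzn] at hk
      omega
    have hs'ne : ∀ v, X v ≠ s' := by
      intro v hv
      by_cases h : v = z
      · rw [h] at hv; linarith
      · rcases hkey v h with h1 | h1
        · exact h1.ne hv
        · linarith
    obtain ⟨l, hl, hle⟩ := ih s' hs'ne hcard
    obtain ⟨A, L, R, B, hlA, hsl, hLm, hRm, hLc, hRc, hLp, hRp⟩ :=
      slab_split hX hgp hG z hs'z hzs hkey hl
    refine ⟨A ++ R ++ B, hsl, ?_⟩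
    rw [hset, Finset.sum_insert hzn, Finset.sum_insert hzn]
    rw [hlA] at hle
    simp only [List.map_append] at hle ⊢
    have hmain : desc (A.map (fun e => slp X Y e.1 e.2) ++ R.map (fun e => slp X Y e.1 e.2) ++
        B.map (fun e => slp X Y e.1 e.2)) + (dL X G z - 1) ≤
        desc (A.map (fun e => slp X Y e.1 e.2) ++ L.map (fun e => slp X Y e.1 e.2) ++
        B.map (fun e => slp X Y e.1 e.2)) + slot X Y G z := by
      have hb := desc_block (A.map (fun e => slp X Y e.1 e.2)) (B.map (fun e => slp X Y e.1 e.2))
        (L.map (fun e => slp X Y e.1 e.2)) (R.map (fun e => slp X Y e.1 e.2)) hLp hRp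
      rw [List.length_map, hLc] at hb
      by_cases hR0 : dR X G z = 0
      · have hR1 : R = [] := List.length_eq_zero_iff.1 (hRc.trans hR0)
        have hsl1 : slot X Y G z = 1 := by
          unfold slot
          rw [if_pos hR0]
        rw [hsl1]
        rw [hR1] at hb ⊢
        simpa using hb
      · have hR1 : R.map (fun e => slp X Y e.1 e.2) ≠ [] := by
          intro h
          rw [List.map_eq_nil_iff] at h
          rw [h] at hRc
          exact hR0 hRc.symm
        by_cases hP : dL X G z ≠ 0 ∧ Pointed X Y G z
        · have hL1 : L.map (fun e => slp X Y e.1 e.2) ≠ [] := by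
            intro h
            rw [List.map_eq_nil_iff] at h
            rw [h] at hLc
            exact hP.1 hLc.symm
          have hsl1 : slot X Y G z = 1 := by
            unfold slot
            rw [if_neg hR0, if_pos hP]
          rw [hsl1]
          have hb2 := desc_block_pass (A.map (fun e => slp X Y e.1 e.2))
            (B.map (fun e => slp X Y e.1 e.2)) (L.map (fun e => slp X Y e.1 e.2))
            (R.map (fun e => slp X Y e.1 e.2)) hLp hRp hL1 hR1 (EI_sep hP.2 hLm hRm)
          rw [List.length_map, hLc] at hb2
          exact hb2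
        · have hsl1 : slot X Y G z = 2 := by
            unfold slot
            rw [if_neg hR0, if_neg hP]
          rw [hsl1]
          rw [if_neg hR1] at hb
          exact hb
    omega

open Classical in
/-- **Lemma E.** A plane straight-line graph on `n` points, no three of them collinear, satisfies
`#edges + #pointed vertices ≤ 3 n`.  (`∑ v, dL X G v` is the number of edges.) -/
theorem edges_add_pointed {V : Type*} [Fintype V] {X Y : V → ℝ} (hX : Function.Injective X)
    (hgp : GP X Y) {G : SimpleGraph V} (hG : Pln X Y G) :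
    (∑ v, dL X G v) + cnt (fun v => Pointed X Y G v) ≤ 3 * Fintype.card V := by
  have hs : ∃ s : ℝ, ∀ v, X v < s := by
    obtain ⟨M, hM⟩ := (Set.finite_range X).bddAbove
    refine ⟨M + 1, fun v => ?_⟩
    have := hM (Set.mem_range_self v)
    linarith
  obtain ⟨s, hs⟩ := hs
  obtain ⟨l, _, hle⟩ := EI_sweep hX hgp hG _ s (fun v => (hs v).ne) rfl
  have hall : (Finset.univ.filter fun v => X v < s) = Finset.univ := by
    ext v
    simp [hs v]
  rw [hall] at hle
  have hpt : ∀ v, dL X G v + (if Pointed X Y G v then 1 else 0) + slot X Y G v ≤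
      3 + (dL X G v - 1) := by
    intro v
    unfold slot
    by_cases h1 : dR X G v = 0
    · rw [if_pos h1]
      split_ifs <;> omega
    · rw [if_neg h1]
      by_cases h2 : Pointed X Y G v
      · by_cases h3 : dL X G v = 0
        · rw [if_pos h2, if_neg (fun h => h.1 h3)]
          omega
        · rw [if_pos h2, if_pos ⟨h3, h2⟩]
          omega
      · rw [if_neg h2, if_neg (fun h => h2 h.2)]
        omega
  have hsum := Finset.sum_le_sum (fun v (_ : v ∈ Finset.univ) => hpt v)
  rw [Finset.sum_add_distrib, Finset.sum_add_distrib, Finset.sum_add_distrib, Finset.sum_const,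
    Finset.card_univ, smul_eq_mul] at hsum
  have hcnt : cnt (fun v => Pointed X Y G v) = ∑ v, if Pointed X Y G v then 1 else 0 := by
    unfold cnt
    rw [Finset.card_filter]
  rw [hcnt]
  have h3 : Fintype.card V * 3 = 3 * Fintype.card V := mul_comm _ _
  rw [h3] at hsum
  omega

end Helper24.GT
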