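import Pool.Agent.Helper24.GT.Defs

namespace Helper24.GT

/-- Junction term: `1` if the last element of `P` is larger than the first element of `Q`. -/
noncomputable def EL_J (P Q : List ℝ) : ℕ :=
  match P.getLast?, Q.head? with
  | some a, some b => by classical exact if b < a then 1 else 0
  | _, _ => 0

theorem EL_J_le_one (P Q : List ℝ) : EL_J P Q ≤ 1 := by
  unfold EL_J
  split
  · split_ifs <;> omega
  · omega

theorem EL_J_nil_left (Q : List ℝ) : EL_J [] Q = 0 := by simp [EL_J]

theorem EL_J_nil_right (P : List ℝ) : EL_J P [] = 0 := by
  unfold EL_J; simp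

theorem EL_desc_append (P Q : List ℝ) : desc (P ++ Q) = desc P + desc Q + EL_J P Q := by
  induction P with
  | nil => simp [EL_J, desc]
  | cons a P ih =>
    cases P with
    | nil =>
      cases Q with
      | nil => simp [EL_J, desc]
      | cons b Q =>
        simp only [List.cons_append, List.nil_append, desc, EL_J, List.getLast?_singleton,
          List.head?_cons]
        split_ifs <;> omega
    | cons b P =>
      have hJ : EL_J (a :: b :: P) Q = EL_J (b :: P) Q := by
        unfold EL_J
        rw [List.getLast?_cons_cons]
      simp only [List.cons_append, desc] at ih ⊢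
      rw [ih, hJ]
      omega

theorem EL_J_append {P P' : List ℝ} (hP' : P' ≠ []) (Q : List ℝ) :
    EL_J (P ++ P') Q = EL_J P' Q := by
  unfold EL_J
  rw [List.getLast?_append_of_ne_nil _ hP']

theorem EL_desc_decr (L : List ℝ) (hL : L.Pairwise (fun x y => y < x)) :
    desc L = L.length - 1 := by
  induction L with
  | nil => simp [desc]
  | cons a L ih =>
    cases L with
    | nil => simp [desc]
    | cons b L =>
      have h1 := List.pairwise_cons.1 hL
      have h2 := ih h1.2
      have h3 : b < a := h1.1 b (by simp)
      simp only [desc, h2, h3, if_true, List.length_cons]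
      omega

theorem EL_desc_incr (L : List ℝ) (hL : L.Pairwise (fun x y => x < y)) : desc L = 0 := by
  induction L with
  | nil => simp [desc]
  | cons a L ih =>
    cases L with
    | nil => simp [desc]
    | cons b L =>
      have h1 := List.pairwise_cons.1 hL
      have h2 := ih h1.2
      have h3 : ¬ b < a := not_lt.2 (h1.1 b (by simp)).le
      simp only [desc, h2, h3, if_false]

theorem EL_J_mono_left {P P' Q : List ℝ} (hP' : P' ≠ [])
    (h : ∀ x ∈ P', ∀ y ∈ P, y < x) : EL_J P Q ≤ EL_J P' Q := by
  rcases List.eq_nil_or_concat P with rfl | ⟨P1, a, rfl⟩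
  · rw [EL_J_nil_left]; exact Nat.zero_le _
  rcases List.eq_nil_or_concat P' with rfl | ⟨P2, b, rfl⟩
  · exact absurd rfl hP'
  cases Q with
  | nil => rw [EL_J_nil_right]; exact Nat.zero_le _
  | cons c Q =>
    have hab : a < b := h b (by simp) a (by simp)
    simp only [EL_J, List.concat_eq_append, List.getLast?_append, List.getLast?_singleton,
      Option.some_or, List.head?_cons]
    split_ifs with h1 h2
    · exact le_rfl
    · exact absurd (lt_trans h1 hab) h2
    · exact Nat.zero_le _
    · exact le_rfl

theorem EL_J_mono_right {P Q Q' : List ℝ} (hQ' : Q' ≠ [])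
    (h : ∀ x ∈ Q', ∀ y ∈ Q, x < y) : EL_J P Q ≤ EL_J P Q' := by
  cases Q with
  | nil => rw [EL_J_nil_right]; exact Nat.zero_le _
  | cons a Q1 =>
    cases Q' with
    | nil => exact absurd rfl hQ'
    | cons b Q2 =>
      rcases List.eq_nil_or_concat P with rfl | ⟨P1, c, rfl⟩
      · rw [EL_J_nil_left]; exact Nat.zero_le _
      have hab : b < a := h b (by simp) a (by simp)
      simp only [EL_J, List.concat_eq_append, List.getLast?_append, List.getLast?_singleton,
        Option.some_or, List.head?_cons]
      split_ifs with h1 h2
      · exact le_rfl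
      · exact absurd (lt_trans hab h1) h2
      · exact Nat.zero_le _
      · exact le_rfl

/-- Replacing a strictly decreasing block `L` by a strictly increasing block `R` inside a list:
`L` carries `L.length - 1` descents, `R` carries none, and the (at most two) junctions can create
at most two new descents, at most one if `R` is empty. -/
theorem desc_block (A B L R : List ℝ) (hL : L.Pairwise (fun x y => y < x))
    (hR : R.Pairwise (fun x y => x < y)) :
    desc (A ++ R ++ B) + (L.length - 1) ≤ desc (A ++ L ++ B) + (if R = [] then 1 else 2) := by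
  have h1 := EL_desc_append (A ++ L) B
  have h2 := EL_desc_append A L
  have h3 := EL_desc_append (A ++ R) B
  have h4 := EL_desc_append A R
  have h5 := EL_desc_decr L hL
  have h6 := EL_desc_incr R hR
  have h7 := EL_J_le_one (A ++ R) B
  have h8 := EL_J_le_one A R
  split_ifs with h
  · have h9 : EL_J A R = 0 := by rw [h, EL_J_nil_right]
    omega
  · omega

/-- If both blocks are non-empty and separated, at most one junction can create a new descent:
if all of `R` is below all of `L`, then a descent (last R, first B) comes from the old descent
(last L, first B); if all of `L` is below all of `R`, then a descent (last A, first R) comes from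
the old descent (last A, first L). -/
theorem desc_block_pass (A B L R : List ℝ) (hL : L.Pairwise (fun x y => y < x))
    (hR : R.Pairwise (fun x y => x < y)) (hL0 : L ≠ []) (hR0 : R ≠ [])
    (h : (∀ x ∈ L, ∀ y ∈ R, y < x) ∨ (∀ x ∈ L, ∀ y ∈ R, x < y)) :
    desc (A ++ R ++ B) + (L.length - 1) ≤ desc (A ++ L ++ B) + 1 := by
  have h1 := EL_desc_append (A ++ L) B
  have h2 := EL_desc_append A L
  have h3 := EL_desc_append (A ++ R) B
  have h4 := EL_desc_append A R
  have h5 := EL_desc_decr L hL
  have h6 := EL_desc_incr R hR
  have h7 : EL_J (A ++ R) B = EL_J R B := EL_J_append hR0 B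
  have h8 : EL_J (A ++ L) B = EL_J L B := EL_J_append hL0 B
  rcases h with h | h
  · have h9 : EL_J R B ≤ EL_J L B := EL_J_mono_left hL0 h
    have h10 := EL_J_le_one A R
    omega
  · have h9 : EL_J A R ≤ EL_J A L := EL_J_mono_right hL0 h
    have h10 := EL_J_le_one R B
    omega

end Helper24.GT
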