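import Mathlib

namespace Helper24.GT

/-- Final asymptotic computation. -/
theorem final_numeric (c : ℝ) (hc : c < (21 - Real.sqrt 329) / 16) :
    ∃ N : ℕ, ∀ n : ℕ, N ≤ n → ∀ t : ℕ, 2 * t ≤ n →
      (∀ w : ℕ, 0 < w → (n : ℝ) * (n - 1) / 2 + 8 / 7 * t ^ 2 ≤
        3 * n * t + 8 * t * (t / w + 1) ^ 2 + 4 * w * t + 1) → c * n ≤ t := by
  obtain ⟨r, hr⟩ : ∃ r, r = Real.sqrt 329 := ⟨_, rfl⟩
  rw [← hr] at hc
  have hr2 : r ^ 2 = 329 := by rw [hr]; exact Real.sq_sqrt (by norm_num)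
  have hr0 : 0 ≤ r := by rw [hr]; exact Real.sqrt_nonneg _
  have hr18 : 18 < r := by
    rw [hr]; exact Real.lt_sqrt_of_sq_lt (by norm_num)
  have hc2 : c < 3 / 16 := by linarith only [hc, hr18]
  obtain ⟨δ, hδ⟩ : ∃ δ, δ = 1 / 2 - (3 * c - 8 / 7 * c ^ 2) := ⟨_, rfl⟩
  have hδ0 : 0 < δ := by
    have h1 : δ = 8 / 7 * (((21 - r) / 16 - c) * ((21 + r) / 16 - c)) := by
      rw [hδ]
      linear_combination (1 / 224) * hr2
    rw [h1]
    have h2 : 0 < (21 - r) / 16 - c := by linarith only [hc]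
    have h3 : 0 < (21 + r) / 16 - c := by linarith only [hc, hr0]
    positivity
  obtain ⟨Q, hQ⟩ : ∃ Q, Q = 2 / δ := ⟨_, rfl⟩
  have hQ0 : 0 < Q := by rw [hQ]; positivity
  have hQδ : Q * δ = 2 := by rw [hQ]; field_simp
  obtain ⟨K, hK⟩ : ∃ K, K = 7 / 2 + 4 * (Q + 1) ^ 2 := ⟨_, rfl⟩
  refine ⟨⌈2 * K / δ⌉₊ + 1, ?_⟩
  intro n hn t ht H
  by_contra hcon
  push Not at hcon
  have hn1 : (1 : ℝ) ≤ n := by exact_mod_cast (by omega : 1 ≤ n)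
  have hn0 : (0 : ℝ) < n := by linarith only [hn1]
  have hnK : 2 * K < δ * n := by
    have h1 : 2 * K / δ ≤ (⌈2 * K / δ⌉₊ : ℝ) := Nat.le_ceil _
    have h2 : ((⌈2 * K / δ⌉₊ : ℕ) : ℝ) + 1 ≤ n := by exact_mod_cast hn
    have h3 : 2 * K / δ < n := by linarith only [h1, h2]
    rw [div_lt_iff₀ hδ0] at h3
    linarith only [h3]
  have ht0 : (0 : ℝ) ≤ t := Nat.cast_nonneg _
  have ht2 : 2 * (t : ℝ) ≤ n := by exact_mod_cast ht
  -- the choice of `w`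
  have hεn : 0 < δ / 4 * n := by positivity
  obtain ⟨w, hw⟩ : ∃ w : ℕ, w = ⌈δ / 4 * (n : ℝ)⌉₊ := ⟨_, rfl⟩
  have hw0 : 0 < w := by rw [hw]; exact Nat.ceil_pos.2 hεn
  have hw1 : δ / 4 * n ≤ w := by rw [hw]; exact Nat.le_ceil _
  have hw2 : (w : ℝ) < δ / 4 * n + 1 := by rw [hw]; exact Nat.ceil_lt_add_one hεn.le
  have hwR : (0 : ℝ) < w := by exact_mod_cast hw0
  have h := H w hw0
  obtain ⟨q, hq⟩ : ∃ q : ℝ, q = t / w := ⟨_, rfl⟩
  rw [← hq] at h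
  have hq0 : 0 ≤ q := by rw [hq]; positivity
  have hqQ : q ≤ Q := by
    rw [hq, div_le_iff₀ hwR]
    have h1 := mul_le_mul_of_nonneg_left hw1 hQ0.le
    have h2 : Q * (δ / 4 * n) = n / 2 := by
      calc Q * (δ / 4 * n) = (Q * δ) * n / 4 := by ring
        _ = n / 2 := by rw [hQδ]; ring
    linarith only [h1, h2, ht2]
  have h1 : 8 * (t : ℝ) * (q + 1) ^ 2 ≤ 4 * n * (Q + 1) ^ 2 := by
    have g1 : (q + 1) ^ 2 ≤ (Q + 1) ^ 2 := pow_le_pow_left₀ (by linarith only [hq0])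
      (by linarith only [hqQ]) 2
    calc 8 * (t : ℝ) * (q + 1) ^ 2 ≤ 8 * t * (Q + 1) ^ 2 :=
          mul_le_mul_of_nonneg_left g1 (by positivity)
      _ ≤ 4 * n * (Q + 1) ^ 2 :=
          mul_le_mul_of_nonneg_right (by linarith only [ht2]) (sq_nonneg _)
  have h2 : 4 * (w : ℝ) * t ≤ 2 * n * (δ / 4 * n + 1) := by
    calc 4 * (w : ℝ) * t = (2 * w) * (2 * t) := by ring
      _ ≤ (2 * w) * n := mul_le_mul_of_nonneg_left ht2 (by positivity)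
      _ ≤ (2 * (δ / 4 * n + 1)) * n :=
          mul_le_mul_of_nonneg_right (by linarith only [hw2]) hn0.le
      _ = _ := by ring
  have h3 : 3 * (n : ℝ) * t - 8 / 7 * t ^ 2 ≤ n ^ 2 * (3 * c - 8 / 7 * c ^ 2) := by
    have g1 : 0 ≤ c * n - t := by linarith only [hcon]
    have g2 : 0 ≤ 3 * n - 8 / 7 * (c * n + t) := by
      have g3 := mul_le_mul_of_nonneg_right hc2.le hn0.le
      linarith only [g3, ht2, hn0]
    have g4 := mul_nonneg g1 g2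
    linarith only [g4]
  have h4 : n ^ 2 * (3 * c - 8 / 7 * c ^ 2) = n ^ 2 * (1 / 2 - δ) := by rw [hδ]; ring
  have h5 : δ / 2 * (n : ℝ) ^ 2 ≤ n * K := by
    rw [h4] at h3
    rw [hK]
    linarith only [h, h1, h2, h3, hn1]
  have h6 := mul_lt_mul_of_pos_right hnK hn0
  linarith only [h5, h6]

end Helper24.GT
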