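import Pool.Agent.Helper24.GT.Defs

namespace Helper24.GT

/-- The path `x₁ - v - x₂` as a function of the abscissa. -/
noncomputable def pth {V : Type*} (X Y : V → ℝ) (x₁ v x₂ : V) (x : ℝ) : ℝ :=
  if x ≤ X v then ht X Y x₁ v x else ht X Y v x₂ x

theorem G1_pth_continuous {V : Type*} {X Y : V → ℝ} {x₁ v x₂ : V} (h1 : X x₁ < X v) :
    Continuous (pth X Y x₁ v x₂) := by
  unfold pth
  refine Continuous.if_le (ht_continuous X Y x₁ v) (ht_continuous X Y v x₂) continuous_id
    continuous_const ?_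
  intro x hx
  have hx' : x = X v := hx
  rw [hx', ht_right h1, ht_left]

theorem G1_ht_le_max {V : Type*} {X Y : V → ℝ} {a b : V} (hab : X a < X b) (hY : Y a ≤ Y b)
    {x : ℝ} (hx : x ≤ X b) : ht X Y a b x ≤ Y b := by
  have h1 : ht X Y a b x = Y b - (Y b - Y a) / (X b - X a) * (X b - x) := by
    have : X b - X a ≠ 0 := by linarith
    simp only [ht]; field_simp; ring
  rw [h1]
  have h2 : 0 ≤ (Y b - Y a) / (X b - X a) := div_nonneg (by linarith) (by linarith)
  have h3 : 0 ≤ (Y b - Y a) / (X b - X a) * (X b - x) := mul_nonneg h2 (by linarith)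
  linarith

theorem G1_le_ht {V : Type*} {X Y : V → ℝ} {a b : V} (hab : X a < X b) (hY : Y b ≤ Y a)
    {x : ℝ} (hx : x ≤ X b) : Y b ≤ ht X Y a b x := by
  have h1 : ht X Y a b x = Y b + (Y a - Y b) / (X b - X a) * (X b - x) := by
    have : X b - X a ≠ 0 := by linarith
    simp only [ht]; field_simp; ring
  rw [h1]
  have h2 : 0 ≤ (Y a - Y b) / (X b - X a) := div_nonneg (by linarith) (by linarith)
  have h3 : 0 ≤ (Y a - Y b) / (X b - X a) * (X b - x) := mul_nonneg h2 (by linarith)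
  linarith

theorem G1_ht_neg {V : Type*} (X Y : V → ℝ) (a b : V) (x : ℝ) :
    ht (fun v => - X v) (fun v => - Y v) a b (-x) = - ht X Y a b x := by
  simp only [ht]
  have : (-Y b - -Y a) / (-X b - -X a) = (Y b - Y a) / (X b - X a) := by
    rw [show -Y b - -Y a = -(Y b - Y a) by ring, show -X b - -X a = -(X b - X a) by ring,
      neg_div_neg_eq]
  rw [this]
  ring

theorem G1_ht_swap {V : Type*} {X Y : V → ℝ} {a b : V} (hab : X a ≠ X b) (x : ℝ) :
    ht X Y a b x = ht X Y b a x := by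
  have h1 : X b - X a ≠ 0 := fun e => hab (by linarith)
  have h2 : X a - X b ≠ 0 := fun e => hab (by linarith)
  simp only [ht]
  field_simp
  ring

/-- A vertex `w` above the path `x₁ - v - x₂` (`x₁` to the north-west, `x₂` to the south-east of
both `v` and `w`) has no neighbour `u` to the south-west of both `v` and `w`: the edge `w u`
would cross the path. -/
theorem no_sw_of_above {V : Type*} {X Y : V → ℝ} (hX : Function.Injective X)
    {G : SimpleGraph V} (hG : Pln X Y G) {x₁ x₂ v w u : V} (hvw : v ≠ w)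
    (a1 : G.Adj v x₁) (a2 : G.Adj v x₂) (a3 : G.Adj w u)
    (h1 : X x₁ < X v) (h1' : X x₁ < X w) (h2 : X v < X x₂) (h2' : X w < X x₂)
    (k1 : Y v < Y x₁) (k1' : Y w < Y x₁) (k2 : Y x₂ < Y v) (k2' : Y x₂ < Y w)
    (u1 : X u < X v) (u1' : X u < X w) (u2 : Y u < Y v) (u2' : Y u < Y w)
    (hab : pth X Y x₁ v x₂ (X w) < Y w) : False := by
  have hux1 : u ≠ x₁ := fun e => by rw [e] at u2; linarith
  have huv : u ≠ v := fun e => by rw [e] at u1; exact lt_irrefl _ u1
  have hwx1 : w ≠ x₁ := fun e => by rw [e] at h1'; exact lt_irrefl _ h1'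
  have hux2 : u ≠ x₂ := fun e => by rw [e] at u1; linarith
  have hwx2 : w ≠ x₂ := fun e => by rw [e] at h2'; exact lt_irrefl _ h2'
  have hcont : Continuous (fun z => ht X Y u w z - pth X Y x₁ v x₂ z) :=
    (ht_continuous X Y u w).sub (G1_pth_continuous h1)
  have hw : 0 < ht X Y u w (X w) - pth X Y x₁ v x₂ (X w) := by
    rw [ht_right u1']; linarith
  -- a point with negative value
  obtain ⟨lo, hlo1, hlo2, hlo3, hlo4⟩ : ∃ lo : ℝ, X x₁ ≤ lo ∧ X u ≤ lo ∧ lo ≤ X w ∧
      ht X Y u w lo - pth X Y x₁ v x₂ lo < 0 := by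
    rcases le_or_gt (X x₁) (X u) with hc | hc
    · refine ⟨X u, hc, le_rfl, u1'.le, ?_⟩
      have e1 : pth X Y x₁ v x₂ (X u) = ht X Y x₁ v (X u) := by
        unfold pth; rw [if_pos u1.le]
      have e2 : Y v ≤ ht X Y x₁ v (X u) := G1_le_ht h1 k1.le u1.le
      rw [ht_left, e1]
      linarith
    · refine ⟨X x₁, le_rfl, hc.le, h1'.le, ?_⟩
      have e1 : pth X Y x₁ v x₂ (X x₁) = Y x₁ := by
        unfold pth; rw [if_pos h1.le, ht_left]
      have e2 : ht X Y u w (X x₁) ≤ Y w := G1_ht_le_max u1' u2'.le h1'.le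
      rw [e1]
      linarith
  have hmem : (0 : ℝ) ∈ (fun z => ht X Y u w z - pth X Y x₁ v x₂ z) '' Set.Icc lo (X w) :=
    intermediate_value_Icc hlo3 hcont.continuousOn ⟨hlo4.le, hw.le⟩
  obtain ⟨z, ⟨hz1, hz2⟩, hz0⟩ := hmem
  have hz0' : ht X Y u w z = pth X Y x₁ v x₂ z := by
    have : ht X Y u w z - pth X Y x₁ v x₂ z = 0 := hz0
    linarith
  rcases le_or_gt z (X v) with hzv | hzv
  · have e1 : pth X Y x₁ v x₂ z = ht X Y x₁ v z := by
      unfold pth; rw [if_pos hzv]
    rw [e1] at hz0'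
    exact pln_ht hG a3.symm a1.symm hux1 huv hwx1 hvw.symm u1' h1 (by linarith) hz2
      (by linarith) hzv hz0'
  · have e1 : pth X Y x₁ v x₂ z = ht X Y v x₂ z := by
      unfold pth; rw [if_neg (not_le.2 hzv)]
    rw [e1] at hz0'
    exact pln_ht hG a3.symm a2 huv hux2 hvw.symm hwx2 u1' h2 (by linarith) hz2
      hzv.le (by linarith) hz0'

/-- A vertex `w` below the path `x₁ - v - x₂` has no neighbour `u` to the north-east of both `v`
and `w` (the mirror image of `no_sw_of_above` under the point reflection). -/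
theorem no_ne_of_below {V : Type*} {X Y : V → ℝ} (hX : Function.Injective X)
    {G : SimpleGraph V} (hG : Pln X Y G) {x₁ x₂ v w u : V} (hvw : v ≠ w)
    (a1 : G.Adj v x₁) (a2 : G.Adj v x₂) (a3 : G.Adj w u)
    (h1 : X x₁ < X v) (h1' : X x₁ < X w) (h2 : X v < X x₂) (h2' : X w < X x₂)
    (k1 : Y v < Y x₁) (k1' : Y w < Y x₁) (k2 : Y x₂ < Y v) (k2' : Y x₂ < Y w)
    (u1 : X v < X u) (u1' : X w < X u) (u2 : Y v < Y u) (u2' : Y w < Y u)
    (hbe : Y w < pth X Y x₁ v x₂ (X w)) : False := by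
  have hG' : Pln (fun v => - X v) (fun v => - Y v) G := by
    have := hG.lin (p := -1) (q := 0) (r := 0) (s := -1) (by norm_num)
    simpa using this
  have hX' : Function.Injective (fun v => - X v) := fun a b hab => hX (neg_injective hab)
  have hXvw : X v ≠ X w := fun e => hvw (hX e)
  have hp : pth (fun v => - X v) (fun v => - Y v) x₂ v x₁ (- X w) = - pth X Y x₁ v x₂ (X w) := by
    unfold pth
    rcases lt_or_gt_of_ne hXvw with hc | hc
    · rw [if_pos (by linarith : -X w ≤ -X v), if_neg (not_le.2 hc), G1_ht_neg,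
        G1_ht_swap (fun e => by linarith)]
    · rw [if_neg (by linarith : ¬ (-X w ≤ -X v)), if_pos hc.le, G1_ht_neg,
        G1_ht_swap (fun e => by linarith)]
  refine no_sw_of_above (X := fun v => - X v) (Y := fun v => - Y v) hX' hG' (x₁ := x₂) (x₂ := x₁)
    (u := u) hvw a2 a1 a3 ?_ ?_ ?_ ?_ ?_ ?_ ?_ ?_ ?_ ?_ ?_ ?_ ?_
  all_goals first | linarith | (rw [hp]; linarith)

/-- Two such paths: it is impossible that each of `v`, `w` lies above the path of the other, and
impossible that each lies below the path of the other.  Stated for `X v < X w`. -/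
theorem above_iff_below {V : Type*} {X Y : V → ℝ} (hX : Function.Injective X) (hgp : GP X Y)
    {G : SimpleGraph V} (hG : Pln X Y G) {x₁ x₂ v y₁ y₂ w : V} (hvw : X v < X w)
    (a1 : G.Adj v x₁) (a2 : G.Adj v x₂) (b1 : G.Adj w y₁) (b2 : G.Adj w y₂)
    (h1 : X x₁ < X v) (h2 : X w < X x₂) (k1 : X y₁ < X v) (k2 : X w < X y₂) :
    pth X Y y₁ w y₂ (X v) < Y v ↔ Y w < pth X Y x₁ v x₂ (X w) := by
  have e1 : pth X Y y₁ w y₂ (X v) = ht X Y y₁ w (X v) := by
    unfold pth; rw [if_pos hvw.le]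
  have e2 : pth X Y x₁ v x₂ (X w) = ht X Y v x₂ (X w) := by
    unfold pth; rw [if_neg (not_le.2 hvw)]
  rw [e1, e2]
  have hvy : v ≠ y₁ := fun e => by rw [e] at k1; exact lt_irrefl _ k1
  have hvw' : v ≠ w := fun e => by rw [e] at hvw; exact lt_irrefl _ hvw
  have hxy : x₂ ≠ y₁ := fun e => by rw [e] at h2; linarith
  have hxw : x₂ ≠ w := fun e => by rw [e] at h2; exact lt_irrefl _ h2
  have hcont : Continuous (fun z => ht X Y v x₂ z - ht X Y y₁ w z) :=
    (ht_continuous X Y v x₂).sub (ht_continuous X Y y₁ w)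
  have hno : ∀ z, X v ≤ z → z ≤ X w → ht X Y v x₂ z - ht X Y y₁ w z ≠ 0 := by
    intro z hz1 hz2 hz0
    exact pln_ht hG a2 b1.symm hvy hvw' hxy hxw (by linarith) (by linarith) hz1 (by linarith)
      (by linarith) hz2 (by linarith)
  have f1 : ht X Y v x₂ (X v) = Y v := ht_left X Y v x₂
  have f2 : ht X Y y₁ w (X w) = Y w := ht_right (by linarith)
  constructor
  · intro hc
    by_contra hcon
    push Not at hcon
    have hmem : (0 : ℝ) ∈ (fun z => ht X Y v x₂ z - ht X Y y₁ w z) '' Set.Icc (X v) (X w) :=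
      intermediate_value_Icc' hvw.le hcont.continuousOn
        ⟨by rw [f2]; linarith, by rw [f1]; linarith⟩
    obtain ⟨z, ⟨hz1, hz2⟩, hz0⟩ := hmem
    exact hno z hz1 hz2 hz0
  · intro hc
    by_contra hcon
    push Not at hcon
    have hmem : (0 : ℝ) ∈ (fun z => ht X Y v x₂ z - ht X Y y₁ w z) '' Set.Icc (X v) (X w) :=
      intermediate_value_Icc hvw.le hcont.continuousOn
        ⟨by rw [f1]; linarith, by rw [f2]; linarith⟩
    obtain ⟨z, ⟨hz1, hz2⟩, hz0⟩ := hmem
    exact hno z hz1 hz2 hz0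

/-- No vertex lies on such a path. -/
theorem pth_ne {V : Type*} {X Y : V → ℝ} (hgp : GP X Y) {x₁ x₂ v w : V} (hvw : v ≠ w)
    (h1 : X x₁ < X v) (h2 : X v < X x₂) (h1' : x₁ ≠ w) (h2' : x₂ ≠ w) :
    pth X Y x₁ v x₂ (X w) ≠ Y w := by
  unfold pth
  split_ifs
  · exact gp_ht hgp h1 h1' hvw
  · exact gp_ht hgp h2 hvw h2'

/-- A vertex with at most two neighbours is pointed. -/
theorem three_nbrs {V : Type*} [Fintype V] {X Y : V → ℝ} (hX : Function.Injective X)
    (hgp : GP X Y) {G : SimpleGraph V} {v : V} (h : ¬ Pointed X Y G v) :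
    3 ≤ cnt (fun u => G.Adj v u) := by
  classical
  by_contra hc
  push Not at hc
  apply h
  unfold cnt at hc
  set S := Finset.univ.filter (fun u => G.Adj v u) with hS
  have hmem : ∀ u, G.Adj v u → u ∈ S := fun u hu => by
    rw [hS, Finset.mem_filter]; exact ⟨Finset.mem_univ _, hu⟩
  have hmem' : ∀ u, u ∈ S → G.Adj v u := fun u hu => by
    rw [hS, Finset.mem_filter] at hu; exact hu.2
  have hcard : S.card ≤ 2 := by
    have : S.card < 3 := by convert hc
    omega
  rcases Nat.lt_or_ge S.card 1 with h0 | h0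
  · have hS0 : S = ∅ := Finset.card_eq_zero.1 (by omega)
    refine ⟨0, 0, fun u hu => ?_⟩
    have := hmem u hu
    rw [hS0] at this
    exact absurd this (Finset.notMem_empty _)
  · rcases Nat.lt_or_ge S.card 2 with h1 | h1
    · obtain ⟨a, ha⟩ := Finset.card_eq_one.1 (by omega : S.card = 1)
      have haS : a ∈ S := by rw [ha]; exact Finset.mem_singleton_self a
      have hav : X a ≠ X v := fun e => (hmem' a haS).ne (hX e).symm
      refine ⟨X a - X v, Y a - Y v, fun u hu => ?_⟩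
      have hu' := hmem u hu
      rw [ha, Finset.mem_singleton] at hu'
      rw [hu']
      have h2 : 0 < (X a - X v) * (X a - X v) := by
        exact mul_self_pos.2 (sub_ne_zero.2 hav)
      nlinarith [mul_self_nonneg (Y a - Y v)]
    · obtain ⟨a, b, hab, hS2⟩ := Finset.card_eq_two.1 (by omega : S.card = 2)
      have haS : a ∈ S := by rw [hS2]; simp
      have hbS : b ∈ S := by rw [hS2]; simp
      have hD := hgp v a b (hmem' a haS).ne (hmem' b hbS).ne hab
      set D := (X a - X v) * (Y b - Y v) - (X b - X v) * (Y a - Y v) with hDdef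
      refine ⟨((Y b - Y v) - (Y a - Y v)) / D, ((X a - X v) - (X b - X v)) / D, fun u hu => ?_⟩
      have hu' := hmem u hu
      rw [hS2, Finset.mem_insert, Finset.mem_singleton] at hu'
      have key : ((Y b - Y v) - (Y a - Y v)) / D * (X u - X v) +
          ((X a - X v) - (X b - X v)) / D * (Y u - Y v) = 1 := by
        rw [div_mul_eq_mul_div, div_mul_eq_mul_div, ← add_div, div_eq_iff hD, hDdef]
        rcases hu' with rfl | rfl <;> ring
      rw [key]
      norm_num

end Helper24.GT
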