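import Pool.Agent.Helper24.GT.Defs

namespace Helper24.GT

/-- Baseline: a layer in which `v` is not pointed contains an edge from `v` to the left. -/
theorem np_le_rk {V : Type*} [Fintype V] {t : ℕ} {X Y : V → ℝ} {L : Fin t → SimpleGraph V}
    (h : Layered X Y L) (v : V) : np X Y L v ≤ rk X v := by
  classical
  have key : ∀ i : Fin t, ∃ u : V, ¬ Pointed X Y (L i) v → (L i).Adj v u ∧ X u < X v := by
    intro i
    by_cases hp : Pointed X Y (L i) v
    · exact ⟨v, fun hn => absurd hp hn⟩
    · obtain ⟨u, hu⟩ := exists_lt_of_not_pointed h.injX hp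
      exact ⟨u, fun _ => hu⟩
  choose f hf using key
  unfold np rk cnt
  refine Finset.card_le_card_of_injOn f ?_ ?_
  · intro i hi
    have hi' := (Finset.mem_filter.1 hi).2
    exact Finset.mem_coe.2 (Finset.mem_filter.2 ⟨Finset.mem_univ _, (hf i hi').2⟩)
  · intro i hi j hj hij
    have hi' := (Finset.mem_filter.1 hi).2
    have hj' := (Finset.mem_filter.1 hj).2
    have h1 := (hf i hi').1
    have h2 := (hf j hj').1
    rw [← hij] at h2
    exact h.disj v (f i) i j h1 h2

theorem np_le_rk' {V : Type*} [Fintype V] {t : ℕ} {X Y : V → ℝ} {L : Fin t → SimpleGraph V}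
    (h : Layered X Y L) (v : V) : np X Y L v ≤ rk Y v := by
  classical
  have key : ∀ i : Fin t, ∃ u : V, ¬ Pointed X Y (L i) v → (L i).Adj v u ∧ Y u < Y v := by
    intro i
    by_cases hp : Pointed X Y (L i) v
    · exact ⟨v, fun hn => absurd hp hn⟩
    · obtain ⟨u, hu⟩ := exists_below_of_not_pointed h.injY hp
      exact ⟨u, fun _ => hu⟩
  choose f hf using key
  unfold np rk cnt
  refine Finset.card_le_card_of_injOn f ?_ ?_
  · intro i hi
    have hi' := (Finset.mem_filter.1 hi).2
    exact Finset.mem_coe.2 (Finset.mem_filter.2 ⟨Finset.mem_univ _, (hf i hi').2⟩)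
  · intro i hi j hj hij
    have hi' := (Finset.mem_filter.1 hi).2
    have hj' := (Finset.mem_filter.1 hj).2
    have h1 := (hf i hi').1
    have h2 := (hf j hj').1
    rw [← hij] at h2
    exact h.disj v (f i) i j h1 h2

theorem np_le {V : Type*} {t : ℕ} (X Y : V → ℝ) (L : Fin t → SimpleGraph V) (v : V) :
    np X Y L v ≤ t := by
  classical
  unfold np
  refine (Finset.card_filter_le _ _).trans ?_
  simp

/-- `rk (-X) v + rk X v = n - 1`. -/
theorem rk_neg {V : Type*} [Fintype V] {X : V → ℝ} (hX : Function.Injective X) (v : V) :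
    rk X v + rk (fun u => - X u) v + 1 = Fintype.card V := by
  classical
  unfold rk cnt
  have h1 := Finset.card_filter_add_card_filter_not (s := (Finset.univ : Finset V))
    (fun u => X u < X v)
  have h2 : (Finset.univ.filter fun u => ¬ X u < X v) =
      insert v (Finset.univ.filter fun u => - X u < - X v) := by
    ext u
    simp only [Finset.mem_filter, Finset.mem_univ, true_and, Finset.mem_insert, neg_lt_neg_iff,
      not_lt]
    constructor
    · intro hu
      rcases hu.lt_or_eq with h | h
      · exact Or.inr h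
      · exact Or.inl (hX h).symm
    · rintro (rfl | h)
      · exact le_rfl
      · exact h.le
  rw [h2, Finset.card_insert_of_notMem (by simp)] at h1
  rw [← Finset.card_univ, ← h1]
  ring

theorem K0_lt {V : Type*} [Fintype V] {X : V → ℝ} {u v : V} (h : X u < X v) :
    rk X u < rk X v := by
  classical
  unfold rk cnt
  apply Finset.card_lt_card
  rw [Finset.ssubset_iff_of_subset]
  · exact ⟨u, Finset.mem_filter.2 ⟨Finset.mem_univ _, h⟩, by simp⟩
  · intro w hw
    exact Finset.mem_filter.2 ⟨Finset.mem_univ _, (Finset.mem_filter.1 hw).2.trans h⟩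

theorem K0_le {V : Type*} [Fintype V] {X : V → ℝ} {u v : V} (h : X u ≤ X v) :
    rk X u ≤ rk X v := by
  classical
  unfold rk cnt
  apply Finset.card_le_card
  intro w hw
  exact Finset.mem_filter.2 ⟨Finset.mem_univ _, (Finset.mem_filter.1 hw).2.trans_le h⟩

/-- The rank is a bijection onto `{0, …, n-1}`. -/
theorem rk_inj {V : Type*} [Fintype V] {X : V → ℝ} (hX : Function.Injective X) :
    Function.Injective (rk X) := by
  intro u v huv
  by_contra hne
  rcases lt_or_gt_of_ne (fun e : X u = X v => hne (hX e)) with h | h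
  · exact absurd huv (K0_lt h).ne
  · exact absurd huv (K0_lt h).ne'

theorem rk_lt {V : Type*} [Fintype V] (X : V → ℝ) (v : V) : rk X v < Fintype.card V := by
  classical
  unfold rk cnt
  rw [← Finset.card_univ]
  apply Finset.card_lt_card
  rw [Finset.ssubset_iff_of_subset (Finset.filter_subset _ _)]
  exact ⟨v, Finset.mem_univ _, by simp⟩

theorem rk_lt_rk {V : Type*} [Fintype V] {X : V → ℝ} {u v : V} :
    rk X u < rk X v ↔ X u < X v := by
  constructor
  · intro h
    by_contra hc
    exact absurd (K0_le (not_lt.1 hc)) (not_le.2 h)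
  · exact K0_lt

theorem exists_rk_eq {V : Type*} [Fintype V] {X : V → ℝ} (hX : Function.Injective X) {k : ℕ}
    (hk : k < Fintype.card V) : ∃ v, rk X v = k := by
  have hb : Function.Bijective (fun v : V => (⟨rk X v, rk_lt X v⟩ : Fin (Fintype.card V))) := by
    rw [Fintype.bijective_iff_injective_and_card]
    refine ⟨fun a b hab => rk_inj hX (congrArg Fin.val hab), ?_⟩
    simp
  obtain ⟨v, hv⟩ := hb.2 ⟨k, hk⟩
  exact ⟨v, congrArg Fin.val hv⟩

/-- `∑ (t - rank)` over the `t` lowest vertices. -/
theorem sum_rk_low {V : Type*} [Fintype V] {X : V → ℝ} (hX : Function.Injective X) {t : ℕ}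
    (ht : t ≤ Fintype.card V) (A : Finset V) (hA : ∀ v, v ∈ A ↔ rk X v < t) :
    A.card = t ∧ 2 * ∑ v ∈ A, rk X v + t = t ^ 2 := by
  classical
  have him : A.image (rk X) = Finset.range t := by
    ext k
    rw [Finset.mem_image, Finset.mem_range]
    constructor
    · rintro ⟨v, hv, rfl⟩
      exact (hA v).1 hv
    · intro hk
      obtain ⟨v, hv⟩ := exists_rk_eq hX (hk.trans_le ht)
      exact ⟨v, (hA v).2 (hv ▸ hk), hv⟩
  have hinj : Set.InjOn (rk X) (A : Set V) := fun a _ b _ hab => rk_inj hX hab
  constructor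
  · rw [← Finset.card_image_of_injOn hinj, him, Finset.card_range]
  · have h1 : ∑ v ∈ A, rk X v = ∑ k ∈ Finset.range t, k := by
      rw [← him, Finset.sum_image hinj]
    have h2 := Finset.sum_range_id_mul_two t
    rw [h1, mul_comm, h2]
    rcases t with _ | t
    · simp
    · rw [Nat.add_sub_cancel]
      ring

theorem K0_sum (T : Finset ℕ) : ∑ i ∈ Finset.range T.card, i ≤ ∑ x ∈ T, x := by
  induction T using Finset.induction_on_max with
  | empty => simp
  | insert m T hm ih =>
    have hmem : m ∉ T := fun h => lt_irrefl _ (hm m h)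
    rw [Finset.card_insert_of_notMem hmem, Finset.sum_range_succ, Finset.sum_insert hmem, add_comm]
    refine Nat.add_le_add ?_ ih
    have h1 : T ⊆ Finset.range m := fun x hx => Finset.mem_range.2 (hm x hx)
    simpa using Finset.card_le_card h1

/-- `∑_{v ∈ S} (t - rank v) ≥ |S| (|S| + 1) / 2` for a set `S` of vertices of rank `< t`. -/
theorem sum_rk_subset {V : Type*} [Fintype V] {X : V → ℝ} (hX : Function.Injective X) {t : ℕ}
    (S : Finset V) (hS : ∀ v ∈ S, rk X v < t) :
    2 * ∑ v ∈ S, rk X v + S.card * (S.card + 1) ≤ 2 * t * S.card := by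
  classical
  have hinj : Set.InjOn (fun v => t - 1 - rk X v) (S : Set V) := by
    intro a ha b hb hab
    have h1 := hS a ha
    have h2 := hS b hb
    apply rk_inj hX
    have h3 : t - 1 - rk X a = t - 1 - rk X b := hab
    omega
  have h1 := K0_sum (S.image fun v => t - 1 - rk X v)
  rw [Finset.card_image_of_injOn hinj, Finset.sum_image hinj] at h1
  have h2 := Finset.sum_range_id_mul_two S.card
  have h3 : ∑ v ∈ S, (t - 1 - rk X v) + ∑ v ∈ S, rk X v + S.card = t * S.card := by
    have h4 : ∑ v ∈ S, ((t - 1 - rk X v) + rk X v + 1) = ∑ v ∈ S, t := by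
      refine Finset.sum_congr rfl fun v hv => ?_
      have := hS v hv
      omega
    rw [Finset.sum_add_distrib, Finset.sum_add_distrib, Finset.sum_const, Finset.sum_const,
      smul_eq_mul, smul_eq_mul, mul_one] at h4
    rw [h4, mul_comm]
  have h5 : S.card * (S.card - 1) + 2 * S.card = S.card * (S.card + 1) := by
    rcases S.card with _ | n
    · simp
    · rw [Nat.add_sub_cancel]
      ring
  nlinarith

/-- The layers partition the pairs: Lemma E summed over the layers. -/
theorem total_edges {V : Type*} [Fintype V] {t : ℕ} {X Y : V → ℝ} {L : Fin t → SimpleGraph V}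
    (h : Layered X Y L) :
    ∑ i, ∑ v, dL X (L i) v = Fintype.card V * (Fintype.card V - 1) / 2 := by
  classical
  have h1 : ∀ v : V, ∑ i, dL X (L i) v = rk X v := by
    intro v
    unfold dL rk cnt
    simp only [Finset.card_filter]
    rw [Finset.sum_comm]
    refine Finset.sum_congr rfl fun u _ => ?_
    by_cases hu : X u < X v
    · have hne : v ≠ u := fun e => by rw [e] at hu; exact lt_irrefl _ hu
      obtain ⟨i, hi⟩ := h.cover v u hne
      rw [if_pos hu, Finset.sum_eq_single i]
      · rw [if_pos ⟨hi, hu⟩]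
      · intro j _ hj
        rw [if_neg]
        rintro ⟨h2, _⟩
        exact hj (h.disj v u j i h2 hi)
      · intro hn
        exact absurd (Finset.mem_univ i) hn
    · rw [if_neg hu]
      refine Finset.sum_eq_zero fun i _ => ?_
      rw [if_neg]
      exact fun h2 => hu h2.2
  rw [Finset.sum_comm, Finset.sum_congr rfl fun v _ => h1 v]
  have h2 := (sum_rk_low h.injX (le_refl (Fintype.card V)) Finset.univ
    (fun v => ⟨fun _ => rk_lt X v, fun _ => Finset.mem_univ v⟩)).2
  have h3 : Fintype.card V * (Fintype.card V - 1) = 2 * ∑ v : V, rk X v := by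
    have h4 : Fintype.card V * (Fintype.card V - 1) + Fintype.card V = Fintype.card V ^ 2 := by
      rcases Fintype.card V with _ | n
      · simp
      · rw [Nat.add_sub_cancel]
        ring
    omega
  rw [h3, Nat.mul_div_cancel_left _ (by norm_num)]

end Helper24.GT
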