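import Pool.Agent.Helper24.GT.Fin.GG
import Pool.Agent.Helper24.GT.Fin.K0

namespace Helper24.GT

section K1aux

open Classical

variable {V : Type*} [Fintype V] {t : ℕ} {X Y : V → ℝ} {L : Fin t → SimpleGraph V}

/-- For a fixed vertex, the neighbours in the different layers are different. -/
theorem K1_sum_cnt (h : Layered X Y L) (v : V) (P : V → Prop) :
    ∑ i, cnt (fun u => (L i).Adj v u ∧ P u) ≤ cnt P := by
  unfold cnt
  rw [← Finset.card_biUnion]
  · apply Finset.card_le_card
    intro u hu
    simp only [Finset.mem_biUnion, Finset.mem_filter, Finset.mem_univ, true_and] at hu ⊢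
    obtain ⟨i, _, hu⟩ := hu
    exact hu
  · intro i _ j _ hij
    rw [Function.onFun, Finset.disjoint_left]
    intro u hu hu'
    simp only [Finset.mem_filter, Finset.mem_univ, true_and] at hu hu'
    exact hij (h.disj v u i j hu.1 hu'.1)

theorem K1_card_le (h : Layered X Y L) (v : V) (F : Finset V) :
    (Finset.univ.filter (fun i => ∃ u ∈ F, (L i).Adj v u)).card ≤ F.card := by
  have hch : ∀ i ∈ Finset.univ.filter (fun i => ∃ u ∈ F, (L i).Adj v u),
      ∃ u, u ∈ F ∧ (L i).Adj v u := by
    intro i hi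
    simp only [Finset.mem_filter, Finset.mem_univ, true_and] at hi
    exact hi
  haveI : Nonempty V := ⟨v⟩
  choose! f hf using hch
  apply Finset.card_le_card_of_injOn f
  · intro i hi
    exact (hf i hi).1
  · intro i hi j hj hij
    have h1 := (hf i hi).2
    have h2 := (hf j hj).2
    rw [← hij] at h2
    exact h.disj v _ i j h1 h2

theorem K1_window (hX : Function.Injective X) (i0 i1 : ℕ) :
    (Finset.univ.filter (fun u => i0 ≤ rk X u ∧ rk X u < i1)).card ≤ i1 - i0 := by
  rw [← Nat.card_Ico]
  apply Finset.card_le_card_of_injOn (rk X)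
  · intro u hu
    simp only [Finset.coe_filter, Finset.mem_univ, true_and, Set.mem_ofPred_eq] at hu
    simpa using hu
  · intro u _ w _ huw
    exact rk_inj hX huw

theorem K1_quad (v : V) :
    3 * cnt (fun u => X u < X v ∧ Y u < Y v) + cnt (fun u => X u < X v ∧ Y v < Y u) +
      cnt (fun u => X v < X u ∧ Y u < Y v) ≤ rk X v + rk Y v + mm X Y v := by
  have h1 : cnt (fun u => X u < X v ∧ Y u < Y v) + cnt (fun u => X u < X v ∧ Y v < Y u) ≤
      rk X v := by
    unfold rk cnt
    rw [← Finset.card_union_of_disjoint]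
    · apply Finset.card_le_card
      intro u hu
      simp only [Finset.mem_union, Finset.mem_filter, Finset.mem_univ, true_and] at hu ⊢
      rcases hu with hu | hu
      · exact hu.1
      · exact hu.1
    · rw [Finset.disjoint_left]
      intro u hu hu'
      simp only [Finset.mem_filter, Finset.mem_univ, true_and] at hu hu'
      exact lt_asymm hu.2 hu'.2
  have h2 : cnt (fun u => X u < X v ∧ Y u < Y v) + cnt (fun u => X v < X u ∧ Y u < Y v) ≤
      rk Y v := by
    unfold rk cnt
    rw [← Finset.card_union_of_disjoint]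
    · apply Finset.card_le_card
      intro u hu
      simp only [Finset.mem_union, Finset.mem_filter, Finset.mem_univ, true_and] at hu ⊢
      rcases hu with hu | hu
      · exact hu.2
      · exact hu.2
    · rw [Finset.disjoint_left]
      intro u hu hu'
      simp only [Finset.mem_filter, Finset.mem_univ, true_and] at hu hu'
      exact lt_asymm hu.1 hu'.1
  have h3 : mm X Y v = cnt (fun u => X u < X v ∧ Y u < Y v) := rfl
  omega

end K1aux

open Classical in
/-- **Box lemma.**  `Z` is the set of vertices whose `X`-rank lies in the window `[i0, i1)` and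
whose `Y`-rank lies in the window `[j0, j1)`. -/
theorem box_bound {V : Type*} [Fintype V] {t : ℕ} {X Y : V → ℝ} {L : Fin t → SimpleGraph V}
    (h : Layered X Y L) (i0 i1 j0 j1 : ℕ) (Z : Finset V)
    (hZ : ∀ v, v ∈ Z ↔ (i0 ≤ rk X v ∧ rk X v < i1) ∧ (j0 ≤ rk Y v ∧ rk Y v < j1)) :
    3 * ∑ v ∈ Z, np X Y L v ≤
      (∑ v ∈ Z, (rk X v + rk Y v + mm X Y v)) + 6 * t + 3 * Z.card * ((i1 - i0) + (j1 - j0)) := by
  set FX : Finset V := Finset.univ.filter (fun u => i0 ≤ rk X u ∧ rk X u < i1) with hFX
  set FY : Finset V := Finset.univ.filter (fun u => j0 ≤ rk Y u ∧ rk Y u < j1) with hFY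
  have hF : (FX ∪ FY).card ≤ (i1 - i0) + (j1 - j0) :=
    (Finset.card_union_le _ _).trans
      (Nat.add_le_add (K1_window h.injX i0 i1) (K1_window h.injY j0 j1))
  set N : Fin t → Finset V := fun i => Z.filter (fun v => ¬ Pointed X Y (L i) v ∧
    ∀ u, (L i).Adj v u → u ∉ FX ∪ FY) with hN
  -- step 1
  have h1 : ∀ v ∈ Z, np X Y L v ≤
      (Finset.univ.filter (fun i => v ∈ N i)).card + ((i1 - i0) + (j1 - j0)) := by
    intro v hv
    have hsub : Finset.univ.filter (fun i => ¬ Pointed X Y (L i) v) ⊆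
        Finset.univ.filter (fun i => v ∈ N i) ∪
          Finset.univ.filter (fun i => ∃ u ∈ FX ∪ FY, (L i).Adj v u) := by
      intro i hi
      simp only [Finset.mem_union, Finset.mem_filter, Finset.mem_univ, true_and] at hi ⊢
      by_cases hc : ∃ u, (u ∈ FX ∨ u ∈ FY) ∧ (L i).Adj v u
      · right; exact hc
      · left
        simp only [hN, Finset.mem_filter, Finset.mem_union]
        exact ⟨hv, hi, fun u hu hu' => hc ⟨u, hu', hu⟩⟩
    calc np X Y L v ≤ _ := Finset.card_le_card hsub
      _ ≤ _ := Finset.card_union_le _ _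
      _ ≤ _ := Nat.add_le_add_left ((K1_card_le h v (FX ∪ FY)).trans hF) _
  have h2 : ∑ v ∈ Z, (Finset.univ.filter (fun i => v ∈ N i)).card = ∑ i, (N i).card := by
    simp only [Finset.card_eq_sum_ones, Finset.sum_filter]
    rw [Finset.sum_comm]
    refine Finset.sum_congr rfl fun i _ => ?_
    rw [← Finset.sum_filter]
    congr 1
    ext v
    simp only [hN, Finset.mem_filter]
    tauto
  -- step 2
  have h3 : ∀ i, 3 * (N i).card ≤ 6 + ∑ v ∈ Z,
      (3 * cnt (fun u => (L i).Adj v u ∧ X u < X v ∧ Y u < Y v) +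
      cnt (fun u => (L i).Adj v u ∧ X u < X v ∧ Y v < Y u) +
      cnt (fun u => (L i).Adj v u ∧ X v < X u ∧ Y u < Y v)) := by
    intro i
    have hNZ : N i ⊆ Z := Finset.filter_subset _ _
    have hcl := cluster h.injX h.injY h.gp (h.pln i) (N i)
      (fun v hv => ((Finset.mem_filter.mp hv).2).1)
      (fun v hv u hu => by
        have hu' := ((Finset.mem_filter.mp hv).2).2 u hu
        simp only [hFX, hFY, Finset.mem_union, Finset.mem_filter, Finset.mem_univ, true_and,
          not_or, not_and, not_lt] at hu'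
        by_cases hc : i0 ≤ rk X u
        · right
          intro w hw
          have hw' := ((hZ w).mp (hNZ hw)).1
          exact rk_lt_rk.mp (lt_of_lt_of_le hw'.2 (hu'.1 hc))
        · left
          intro w hw
          have hw' := ((hZ w).mp (hNZ hw)).1
          exact rk_lt_rk.mp (lt_of_lt_of_le (not_le.mp hc) hw'.1))
      (fun v hv u hu => by
        have hu' := ((Finset.mem_filter.mp hv).2).2 u hu
        simp only [hFX, hFY, Finset.mem_union, Finset.mem_filter, Finset.mem_univ, true_and,
          not_or, not_and, not_lt] at hu'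
        by_cases hc : j0 ≤ rk Y u
        · right
          intro w hw
          have hw' := ((hZ w).mp (hNZ hw)).2
          exact rk_lt_rk.mp (lt_of_lt_of_le hw'.2 (hu'.2 hc))
        · left
          intro w hw
          have hw' := ((hZ w).mp (hNZ hw)).2
          exact rk_lt_rk.mp (lt_of_lt_of_le (not_le.mp hc) hw'.1))
    refine hcl.trans (Nat.add_le_add_left ?_ _)
    exact Finset.sum_le_sum_of_subset hNZ
  have h4 : ∑ i, ∑ v ∈ Z,
      (3 * cnt (fun u => (L i).Adj v u ∧ X u < X v ∧ Y u < Y v) +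
      cnt (fun u => (L i).Adj v u ∧ X u < X v ∧ Y v < Y u) +
      cnt (fun u => (L i).Adj v u ∧ X v < X u ∧ Y u < Y v)) ≤
      ∑ v ∈ Z, (rk X v + rk Y v + mm X Y v) := by
    rw [Finset.sum_comm]
    refine Finset.sum_le_sum fun v _ => ?_
    rw [Finset.sum_add_distrib, Finset.sum_add_distrib, ← Finset.mul_sum]
    have e1 := K1_sum_cnt h v (fun u => X u < X v ∧ Y u < Y v)
    have e2 := K1_sum_cnt h v (fun u => X u < X v ∧ Y v < Y u)
    have e3 := K1_sum_cnt h v (fun u => X v < X u ∧ Y u < Y v)
    have e4 := K1_quad (X := X) (Y := Y) v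
    omega
  have h5 : ∑ v ∈ Z, np X Y L v ≤ ∑ i, (N i).card + Z.card * ((i1 - i0) + (j1 - j0)) := by
    calc ∑ v ∈ Z, np X Y L v ≤ ∑ v ∈ Z, ((Finset.univ.filter (fun i => v ∈ N i)).card +
          ((i1 - i0) + (j1 - j0))) := Finset.sum_le_sum h1
      _ = _ := by rw [Finset.sum_add_distrib, h2, Finset.sum_const, smul_eq_mul]
  have h6 : 3 * ∑ i, (N i).card ≤ 6 * t + ∑ i, ∑ v ∈ Z,
      (3 * cnt (fun u => (L i).Adj v u ∧ X u < X v ∧ Y u < Y v) +
      cnt (fun u => (L i).Adj v u ∧ X u < X v ∧ Y v < Y u) +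
      cnt (fun u => (L i).Adj v u ∧ X v < X u ∧ Y u < Y v)) := by
    rw [Finset.mul_sum]
    refine (Finset.sum_le_sum fun i _ => h3 i).trans ?_
    rw [Finset.sum_add_distrib, Finset.sum_const, Finset.card_univ, Fintype.card_fin, smul_eq_mul,
      mul_comm t 6]
  have h7 : 3 * Z.card * ((i1 - i0) + (j1 - j0)) = 3 * (Z.card * ((i1 - i0) + (j1 - j0))) := by
    ring
  rw [h7]
  omega

end Helper24.GT
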