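import Pool.Agent.Helper24.GT.Fin.K1

/-!
# Piece K2: the corner lemma
-/

namespace Helper24.GT

/-- **Corner lemma**: sum of the box lemma over the boxes of a grid with windows of length `w`. -/
theorem corner_bound {V : Type*} [Fintype V] {t : ℕ} {X Y : V → ℝ} {L : Fin t → SimpleGraph V}
    (h : Layered X Y L) (w : ℕ) (hw : 0 < w) (C : Finset V)
    (hC : ∀ v, v ∈ C ↔ rk X v < t ∧ rk Y v < t) :
    3 * ∑ v ∈ C, np X Y L v ≤
      (∑ v ∈ C, (rk X v + rk Y v + mm X Y v)) + 6 * t * (t / w + 1) ^ 2 + 6 * w * C.card := by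
  classical
  let T : Finset (ℕ × ℕ) := Finset.range (t / w + 1) ×ˢ Finset.range (t / w + 1)
  let f : V → ℕ × ℕ := fun v => (rk X v / w, rk Y v / w)
  have hf : ∀ v ∈ C, f v ∈ T := by
    intro v hv
    have h1 := (hC v).1 hv
    refine Finset.mem_product.2 ⟨Finset.mem_range.2 ?_, Finset.mem_range.2 ?_⟩
    · exact Nat.lt_succ_of_le (Nat.div_le_div_right h1.1.le)
    · exact Nat.lt_succ_of_le (Nat.div_le_div_right h1.2.le)
  have hcell : ∀ ab ∈ T, 3 * ∑ v ∈ C.filter (fun v => f v = ab), np X Y L v ≤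
      (∑ v ∈ C.filter (fun v => f v = ab), (rk X v + rk Y v + mm X Y v)) + 6 * t +
        6 * w * (C.filter (fun v => f v = ab)).card := by
    rintro ⟨a, b⟩ -
    have hd : ∀ r c : ℕ, r / w = c ↔ c * w ≤ r ∧ r < (c + 1) * w := by
      intro r c
      rw [Nat.div_eq_iff hw]
      have e1 : (c + 1) * w = c * w + w := by ring
      rw [e1]
      constructor
      · rintro ⟨h1, h2⟩
        exact ⟨h1, by omega⟩
      · rintro ⟨h1, h2⟩
        exact ⟨h1, by omega⟩
    have hZ : ∀ v, v ∈ C.filter (fun v => f v = (a, b)) ↔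
        (a * w ≤ rk X v ∧ rk X v < min ((a + 1) * w) t) ∧
          (b * w ≤ rk Y v ∧ rk Y v < min ((b + 1) * w) t) := by
      intro v
      rw [Finset.mem_filter, hC, Prod.mk.injEq, hd, hd, lt_min_iff, lt_min_iff]
      tauto
    have h1 := box_bound h (a * w) (min ((a + 1) * w) t) (b * w) (min ((b + 1) * w) t) _ hZ
    have e1 : ∀ c : ℕ, min ((c + 1) * w) t - c * w ≤ w := by
      intro c
      have e2 : (c + 1) * w = c * w + w := by ring
      have e3 : min ((c + 1) * w) t ≤ c * w + w := (min_le_left _ _).trans e2.le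
      omega
    have h2 : 3 * (C.filter (fun v => f v = (a, b))).card *
        ((min ((a + 1) * w) t - a * w) + (min ((b + 1) * w) t - b * w)) ≤
        6 * w * (C.filter (fun v => f v = (a, b))).card := by
      calc 3 * (C.filter (fun v => f v = (a, b))).card *
            ((min ((a + 1) * w) t - a * w) + (min ((b + 1) * w) t - b * w))
          ≤ 3 * (C.filter (fun v => f v = (a, b))).card * (w + w) :=
            Nat.mul_le_mul_left _ (add_le_add (e1 a) (e1 b))
        _ = 6 * w * (C.filter (fun v => f v = (a, b))).card := by ring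
    omega
  have hs1 : ∑ v ∈ C, np X Y L v = ∑ ab ∈ T, ∑ v ∈ C.filter (fun v => f v = ab), np X Y L v :=
    (Finset.sum_fiberwise_of_maps_to hf _).symm
  have hs2 : ∑ v ∈ C, (rk X v + rk Y v + mm X Y v) =
      ∑ ab ∈ T, ∑ v ∈ C.filter (fun v => f v = ab), (rk X v + rk Y v + mm X Y v) :=
    (Finset.sum_fiberwise_of_maps_to hf _).symm
  have hs3 : C.card = ∑ ab ∈ T, (C.filter (fun v => f v = ab)).card :=
    Finset.card_eq_sum_card_fiberwise hf
  have hT : T.card = (t / w + 1) ^ 2 := by
    rw [Finset.card_product, Finset.card_range]; ring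
  calc 3 * ∑ v ∈ C, np X Y L v
      = ∑ ab ∈ T, 3 * ∑ v ∈ C.filter (fun v => f v = ab), np X Y L v := by
        rw [hs1, Finset.mul_sum]
    _ ≤ ∑ ab ∈ T, ((∑ v ∈ C.filter (fun v => f v = ab), (rk X v + rk Y v + mm X Y v)) + 6 * t +
        6 * w * (C.filter (fun v => f v = ab)).card) := Finset.sum_le_sum hcell
    _ = (∑ v ∈ C, (rk X v + rk Y v + mm X Y v)) + 6 * t * (t / w + 1) ^ 2 + 6 * w * C.card := by
        rw [Finset.sum_add_distrib, Finset.sum_add_distrib, ← hs2, Finset.sum_const, hT,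
          ← Finset.mul_sum, ← hs3, smul_eq_mul]
        ring

end Helper24.GT
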