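import Pool.Agent.Helper24.GT.Fin.EI
import Pool.Agent.Helper24.GT.Fin.K3
import Pool.Agent.Helper24.GT.Fin.R
import Pool.Agent.Helper24.GT.Fin.D
import Pool.Agent.Helper24.GT.Fin.F

namespace Helper24.GT

open Classical in
theorem M_sum_pointed {V : Type*} [Fintype V] {t : ℕ} (X Y : V → ℝ)
    (L : Fin t → SimpleGraph V) :
    (∑ i, cnt (fun v => Pointed X Y (L i) v)) + ∑ v, np X Y L v = Fintype.card V * t := by
  have h1 : (∑ i, cnt (fun v => Pointed X Y (L i) v)) =
      ∑ v : V, (Finset.univ.filter (fun i => Pointed X Y (L i) v)).card := by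
    simp only [cnt, Finset.card_filter]
    rw [Finset.sum_comm]
  rw [h1, ← Finset.sum_add_distrib]
  have h2 : ∀ v ∈ (Finset.univ : Finset V),
      (Finset.univ.filter (fun i => Pointed X Y (L i) v)).card + np X Y L v = t := by
    intro v _
    unfold np
    rw [Finset.card_filter_add_card_filter_not]
    simp
  rw [Finset.sum_congr rfl h2]
  simp

theorem M_ineq {V : Type*} [Fintype V] {t : ℕ} {X Y : V → ℝ} {L : Fin t → SimpleGraph V}
    (h : Layered X Y L) :
    Fintype.card V * (Fintype.card V - 1) / 2 ≤ 2 * Fintype.card V * t + ∑ v, np X Y L v := by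
  have h1 : ∑ i, ((∑ v, dL X (L i) v) + cnt (fun v => Pointed X Y (L i) v)) ≤
      ∑ _i : Fin t, 3 * Fintype.card V :=
    Finset.sum_le_sum (fun i _ => edges_add_pointed h.injX h.gp (h.pln i))
  rw [Finset.sum_add_distrib, total_edges h] at h1
  have h2 := M_sum_pointed X Y L
  simp only [Finset.sum_const, Finset.card_univ, Fintype.card_fin, smul_eq_mul] at h1
  nlinarith

open Classical in
theorem M_main_ineq {V : Type*} [Fintype V] {t : ℕ} (ht : 2 * t ≤ Fintype.card V)
    (hd : DrawableIn (⊤ : SimpleGraph V) t) (w : ℕ) (hw : 0 < w) :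
    (Fintype.card V : ℝ) * (Fintype.card V - 1) / 2 + 8 / 7 * t ^ 2 ≤
        3 * Fintype.card V * t + 8 * t * (t / w + 1) ^ 2 + 4 * w * t + 1 := by
  obtain ⟨X, W, L, hX, hgp, hpl, hcov, hdis⟩ := exists_coordinates hd
  obtain ⟨s, hY, hs⟩ := exists_shear hX hgp ht
  have hl : Layered X (fun v => W v + s * X v) L := Layered.shear s hX hgp hpl hcov hdis hY
  set Y : V → ℝ := fun v => W v + s * X v with hYdef
  set P₁ : Finset V := Finset.univ.filter (fun v => (rk X v < t ∧ rk Y v < t) ∨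
      (rk (fun u => - X u) v < t ∧ rk (fun u => - Y u) v < t)) with hP₁
  set P₂ : Finset V := Finset.univ.filter (fun v => (rk X v < t ∧ rk (fun u => - Y u) v < t) ∨
      (rk (fun u => - X u) v < t ∧ rk Y v < t)) with hP₂
  have h1 := hs P₁ P₂ (by intro v; simp [hP₁, hYdef]) (by intro v; simp [hP₂, hYdef])
  have h2 := np_total hl ht w hw P₁ P₂ (by intro v; simp [hP₁]) (by intro v; simp [hP₂])
  have h3 := M_ineq hl
  -- move to the reals
  have h2' : (12 * ∑ v, (np X Y L v : ℝ)) ≤ 12 * Fintype.card V * t - 12 * t * (t + 1)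
      - 2 * P₁.card * P₂.card - 3 * (2 * t - P₁.card - P₂.card) ^ 2
      + 96 * t * (t / w + 1 : ℕ) ^ 2 + 48 * w * t := by
    generalize (t / w + 1 : ℕ) = q at h2
    have h2r := (Int.cast_le (R := ℝ)).2 h2
    push_cast at h2r
    exact h2r
  have h3' : (Fintype.card V : ℝ) * (Fintype.card V - 1) / 2 ≤
      2 * Fintype.card V * t + ∑ v, (np X Y L v : ℝ) := by
    have hev : 2 ∣ Fintype.card V * (Fintype.card V - 1) := by
      have := Nat.even_mul_pred_self (Fintype.card V)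
      exact this.two_dvd
    have h4 : ((Fintype.card V * (Fintype.card V - 1) / 2 : ℕ) : ℝ) =
        (Fintype.card V : ℝ) * (Fintype.card V - 1) / 2 := by
      rw [Nat.cast_div hev (by norm_num)]
      rcases Nat.eq_zero_or_pos (Fintype.card V) with h0 | h0
      · rw [h0]; simp
      · rw [Nat.cast_mul, Nat.cast_sub h0]; simp
    rw [← h4]
    exact_mod_cast h3
  have h5 : ((t / w + 1 : ℕ) : ℝ) ≤ (t : ℝ) / w + 1 := by
    have : ((t / w : ℕ) : ℝ) ≤ (t : ℝ) / w := Nat.cast_div_le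
    push_cast
    linarith
  have h6 : ((t / w + 1 : ℕ) : ℝ) ^ 2 ≤ ((t : ℝ) / w + 1) ^ 2 :=
    pow_le_pow_left₀ (by positivity) h5 2
  have ht0 : (0 : ℝ) ≤ t := by positivity
  have h7 : 96 * (t : ℝ) * ((t / w + 1 : ℕ) : ℝ) ^ 2 ≤ 96 * (t : ℝ) * ((t : ℝ) / w + 1) ^ 2 :=
    mul_le_mul_of_nonneg_left h6 (by positivity)
  have h8 : (((P₁.card : ℤ) - P₂.card) ^ 2 : ℤ) ≤ 16 := by
    have := abs_le.1 h1
    nlinarith [this.1, this.2]
  have h8' : ((P₁.card : ℝ) - P₂.card) ^ 2 ≤ 16 := by exact_mod_cast h8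
  have h9 : (12 : ℝ) / 7 * t ^ 2 ≤ ((P₁.card : ℝ) + P₂.card) ^ 2 / 2 +
      3 * (2 * t - P₁.card - P₂.card) ^ 2 := by
    nlinarith [sq_nonneg (7 * ((P₁.card : ℝ) + P₂.card) - 12 * t)]
  nlinarith

/-- Main theorem: for every `c < (21 - √329) / 16` and all large `n`, every straight-line drawing
of `K_n` needs at least `c n` plane layers. -/
theorem main (c : ℝ) (hc : c < (21 - Real.sqrt 329) / 16) :
    ∃ N : ℕ, ∀ n : ℕ, N ≤ n → ∀ t : ℕ, DrawableIn (⊤ : SimpleGraph (Fin n)) t → c * n ≤ t := by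
  obtain ⟨N, hN⟩ := final_numeric c hc
  refine ⟨N, ?_⟩
  intro n hn t hd
  by_cases ht : 2 * t ≤ n
  · refine hN n hn t ht ?_
    intro w hw
    have := M_main_ineq (V := Fin n) (t := t) (by simpa using ht) hd w hw
    simpa using this
  · push Not at ht
    have hc' : c < 1 / 2 := by
      have : (0 : ℝ) ≤ Real.sqrt 329 := Real.sqrt_nonneg _
      have h2 : (13 : ℝ) ≤ Real.sqrt 329 := by
        apply Real.le_sqrt_of_sq_le; norm_num
      linarith
    have ht' : (n : ℝ) < 2 * t := by exact_mod_cast ht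
    have hn0 : (0 : ℝ) ≤ n := by positivity
    nlinarith

end Helper24.GT
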